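import Mathlib

/-!
Ruzsa's dense Sidon set modulo `p (p - 1)` and its distribution in intervals.
-/

namespace Pool.Agent.Work.MP_d0c231_co

/-- Sidon property in the natural numbers. -/
def IsSidonN (B : Finset ℕ) : Prop :=
  ∀ a ∈ B, ∀ b ∈ B, ∀ c ∈ B, ∀ d ∈ B, a + b = c + d → (a = c ∧ b = d) ∨ (a = d ∧ b = c)

/-- Ruzsa's set: the `n < p (p-1)` with `g ^ n = n` modulo `p`. -/
def ruzsa (p : ℕ) (g : ZMod p) : Finset ℕ :=
  (Finset.range (p * (p - 1))).filter (fun n => g ^ n = (n : ZMod p))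

theorem mem_ruzsa {p : ℕ} {g : ZMod p} {n : ℕ} :
    n ∈ ruzsa p g ↔ n < p * (p - 1) ∧ g ^ n = (n : ZMod p) := by
  simp [ruzsa]

theorem eq_of_modEq {p : ℕ} (hp : 2 ≤ p) {a b : ℕ} (ha : a < p * (p - 1)) (hb : b < p * (p - 1))
    (h1 : a ≡ b [MOD p]) (h2 : a ≡ b [MOD (p - 1)]) : a = b := by
  have hcop : Nat.Coprime p (p - 1) := by
    obtain ⟨k, rfl⟩ : ∃ k, p = k + 1 := ⟨p - 1, by omega⟩
    simp
  have h := (Nat.modEq_and_modEq_iff_modEq_mul hcop).mp ⟨h1, h2⟩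
  exact Nat.ModEq.eq_of_lt_of_lt h ha hb

theorem upow_iff {p : ℕ} (u : (ZMod p)ˣ) (hu : orderOf u = p - 1) (a b : ℕ) :
    (u : ZMod p) ^ a = (u : ZMod p) ^ b ↔ a ≡ b [MOD (p - 1)] := by
  rw [← hu, ← pow_eq_pow_iff_modEq, ← Units.val_pow_eq_pow_val, ← Units.val_pow_eq_pow_val,
    Units.val_inj]

theorem card_ruzsa (p : ℕ) [hp : Fact p.Prime] (g : (ZMod p)ˣ) (hg : orderOf g = p - 1) :
    (ruzsa p g).card = p - 1 := by
  have hp2 : 2 ≤ p := hp.out.two_le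
  have hcop : Nat.Coprime p (p - 1) := by
    obtain ⟨k, rfl⟩ : ∃ k, p = k + 1 := ⟨p - 1, by omega⟩
    simp
  have h1 : (ruzsa p g).card = (Finset.range (p - 1)).card := by
    refine Finset.card_bij (fun n _ => n % (p - 1)) ?_ ?_ ?_
    · intro n hn
      exact Finset.mem_range.mpr (Nat.mod_lt _ (by omega))
    · intro a ha b hb hab
      rw [mem_ruzsa] at ha hb
      have h2 : a ≡ b [MOD (p - 1)] := hab
      have h3 : (g : ZMod p) ^ a = (g : ZMod p) ^ b := (upow_iff g hg a b).mpr h2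
      have h4 : (a : ZMod p) = (b : ZMod p) := by rw [← ha.2, ← hb.2, h3]
      exact eq_of_modEq hp2 ha.1 hb.1 ((ZMod.natCast_eq_natCast_iff _ _ _).mp h4) h2
    · intro i hi
      have hi' := Finset.mem_range.mp hi
      let k := Nat.chineseRemainder hcop ((g : ZMod p) ^ i).val i
      have hk1 : (k : ℕ) ≡ ((g : ZMod p) ^ i).val [MOD p] := k.2.1
      have hk2 : (k : ℕ) ≡ i [MOD (p - 1)] := k.2.2
      have hk3 : (k : ℕ) < p * (p - 1) :=
        Nat.chineseRemainder_lt_mul hcop _ _ (by omega) (by omega)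
      refine ⟨k, ?_, ?_⟩
      · rw [mem_ruzsa]
        refine ⟨hk3, ?_⟩
        have h3 : (g : ZMod p) ^ (k : ℕ) = (g : ZMod p) ^ i := (upow_iff g hg _ _).mpr hk2
        have h4 : ((k : ℕ) : ZMod p) = (((g : ZMod p) ^ i).val : ZMod p) :=
          (ZMod.natCast_eq_natCast_iff _ _ _).mpr hk1
        rw [h3, h4, ZMod.natCast_zmod_val]
      · have : (k : ℕ) % (p - 1) = i % (p - 1) := hk2
        rw [this, Nat.mod_eq_of_lt hi']
  rw [h1, Finset.card_range]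

theorem sidon_ruzsa (p : ℕ) [hp : Fact p.Prime] (g : (ZMod p)ˣ) (hg : orderOf g = p - 1) :
    IsSidonN (ruzsa p g) := by
  have hp2 : 2 ≤ p := hp.out.two_le
  -- congruence modulo p is enough
  have key : ∀ a ∈ ruzsa p g, ∀ b ∈ ruzsa p g, (a : ZMod p) = (b : ZMod p) → a = b := by
    intro a ha b hb hab
    rw [mem_ruzsa] at ha hb
    have h3 : (g : ZMod p) ^ a = (g : ZMod p) ^ b := by rw [ha.2, hb.2, hab]
    rw [upow_iff g hg] at h3
    exact eq_of_modEq hp2 ha.1 hb.1 ((ZMod.natCast_eq_natCast_iff _ _ _).mp hab) h3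
  intro a ha b hb c hc d hd h
  have ha' := (mem_ruzsa.mp ha).2
  have hb' := (mem_ruzsa.mp hb).2
  have hc' := (mem_ruzsa.mp hc).2
  have hd' := (mem_ruzsa.mp hd).2
  have hs : (a : ZMod p) + b = c + d := by exact_mod_cast congrArg (Nat.cast : ℕ → ZMod p) h
  have hm : (a : ZMod p) * b = c * d := by
    rw [← ha', ← hb', ← hc', ← hd', ← pow_add, ← pow_add, h]
  have hz : ((a : ZMod p) - c) * ((a : ZMod p) - d) = 0 := by
    linear_combination (a : ZMod p) * hs - hm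
  rcases mul_eq_zero.mp hz with h0 | h0
  · left
    have e1 := key a ha c hc (sub_eq_zero.mp h0)
    exact ⟨e1, by omega⟩
  · right
    have e1 := key a ha d hd (sub_eq_zero.mp h0)
    exact ⟨e1, by omega⟩

theorem exists_ruzsa (p : ℕ) (hp : p.Prime) :
    ∃ B : Finset ℕ, IsSidonN B ∧ B.card = p - 1 ∧ ∀ b ∈ B, 1 ≤ b ∧ b < p * (p - 1) := by
  have : Fact p.Prime := ⟨hp⟩
  obtain ⟨u, hu⟩ := IsCyclic.exists_generator (α := (ZMod p)ˣ)
  have hou : orderOf u = p - 1 := by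
    rw [orderOf_eq_card_of_forall_mem_zpowers hu, Nat.card_eq_fintype_card, ZMod.card_units]
  refine ⟨ruzsa p u, sidon_ruzsa p _ hou, card_ruzsa p _ hou, fun b hb => ?_⟩
  have hb' := mem_ruzsa.mp hb
  refine ⟨?_, hb'.1⟩
  rcases Nat.eq_zero_or_pos b with h0 | h0
  · exfalso
    rw [h0] at hb'
    simp at hb'
  · exact h0

end Pool.Agent.Work.MP_d0c231_co
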