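import Mathlib
import Pool.Agent.Work.MP_d0c231_co.Ruzsa

/-!
Dense Sidon sets are equidistributed in intervals.
-/

namespace Pool.Agent.Work.MP_d0c231_co

open Finset

/-- counting function -/
def cnt (B : Finset ℕ) (y : ℕ) : ℕ := (B.filter (fun b => b < y)).card

theorem cnt_mono (B : Finset ℕ) {y z : ℕ} (h : y ≤ z) : cnt B y ≤ cnt B z := by
  unfold cnt
  refine card_le_card fun b hb => ?_
  rw [mem_filter] at hb ⊢
  exact ⟨hb.1, lt_of_lt_of_le hb.2 h⟩

/-- number of elements of `B` in the window `(x - H, x]` -/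
def win (B : Finset ℕ) (H x : ℕ) : ℕ := (B.filter (fun b => b ≤ x ∧ x < b + H)).card

theorem sum_win (B : Finset ℕ) (H q : ℕ) (hB : ∀ b ∈ B, b < q) :
    ∑ x ∈ range (q + H), win B H x = H * B.card := by
  unfold win
  simp_rw [card_filter]
  rw [sum_comm]
  have : ∀ b ∈ B, (∑ x ∈ range (q + H), if b ≤ x ∧ x < b + H then 1 else 0) = H := by
    intro b hb
    rw [← card_filter]
    have : (range (q + H)).filter (fun x => b ≤ x ∧ x < b + H) = Ico b (b + H) := by
      ext x
      have := hB b hb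
      simp only [mem_filter, mem_range, mem_Ico]
      omega
    rw [this]; simp
  rw [sum_congr rfl this]
  simp [mul_comm]

theorem sum_win_sq (B : Finset ℕ) (H N : ℕ) (hS : IsSidonN B) :
    ∑ x ∈ range N, win B H x ^ 2 ≤ ∑ x ∈ range N, win B H x + H ^ 2 := by
  -- triples (x, b, b')
  set T : Finset (ℕ × ℕ × ℕ) := (range N ×ˢ (B ×ˢ B)).filter
    (fun t => t.2.1 ≤ t.1 ∧ t.1 < t.2.1 + H ∧ t.2.2 ≤ t.1 ∧ t.1 < t.2.2 + H ∧ t.2.1 ≠ t.2.2) with hT
  have h1 : T.card ≤ H ^ 2 := by
    have : T.card ≤ (range H ×ˢ range H).card := by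
      refine card_le_card_of_injOn (fun t => (t.1 - t.2.1, t.1 - t.2.2)) ?_ ?_
      · rintro ⟨x, b, b'⟩ ht
        rw [hT, mem_coe, mem_filter] at ht
        simp only [mem_product] at ht
        simp only [coe_product, coe_range, Set.mem_prod, Set.mem_Iio]
        omega
      · rintro ⟨x, b, b'⟩ ht ⟨z, c, c'⟩ ht' h
        rw [hT, mem_coe, mem_filter] at ht ht'
        simp only [mem_product] at ht ht'
        simp only [Prod.mk.injEq] at h
        obtain ⟨⟨_, hb, hb'⟩, h1, h2, h3, h4, h5⟩ := ht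
        obtain ⟨⟨_, hc, hc'⟩, h1', h2', h3', h4', h5'⟩ := ht'
        have e : b + c' = c + b' := by omega
        rcases hS b hb c' hc' c hc b' hb' e with ⟨e1, e2⟩ | ⟨e1, e2⟩
        · simp only [Prod.mk.injEq]
          refine ⟨by omega, e1, e2.symm⟩
        · exact absurd e1 h5
    simpa [pow_two] using this
  have h2 : ∑ x ∈ range N, win B H x ^ 2 = ∑ x ∈ range N, win B H x + T.card := by
    have h3 : T.card = ∑ x ∈ range N, ((B ×ˢ B).filter (fun t => t.1 ≤ x ∧ x < t.1 + H ∧ t.2 ≤ x ∧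
        x < t.2 + H ∧ t.1 ≠ t.2)).card := by
      rw [hT, card_filter, sum_product]
      simp_rw [card_filter]
    rw [h3, ← sum_add_distrib]
    refine sum_congr rfl fun x _ => ?_
    set W := B.filter (fun b => b ≤ x ∧ x < b + H) with hW
    have e1 : (B ×ˢ B).filter (fun t => t.1 ≤ x ∧ x < t.1 + H ∧ t.2 ≤ x ∧ x < t.2 + H ∧ t.1 ≠ t.2)
        = W.offDiag := by
      ext ⟨b, b'⟩
      simp only [mem_filter, mem_product, mem_offDiag, hW]
      tauto
    rw [e1, offDiag_card]
    have : win B H x = W.card := rfl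
    rw [this]
    have : W.card ≤ W.card * W.card := Nat.le_mul_self _
    rw [pow_two]; omega
  omega

/-- the basic discrepancy estimate -/
theorem cnt_bound (B : Finset ℕ) (p H : ℕ) (hp : 2 ≤ p) (hH : 0 < H) (hS : IsSidonN B)
    (hc : B.card = p - 1) (hB : ∀ b ∈ B, b < p * (p - 1)) (y : ℕ) (hy : y ≤ p * (p - 1)) :
    |(cnt B y : ℝ) - y / p| ≤ (H : ℝ) / p +
      Real.sqrt ((p ^ 2 + H) * (H * p + H ^ 2 / p + H ^ 3 / p ^ 2)) / H := by
  set q := p * (p - 1) with hq
  have hp0 : (0 : ℝ) < p := by positivity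
  have hH0 : (0 : ℝ) < H := by exact_mod_cast hH
  have hqR : (q : ℝ) = p * (p - 1) := by
    rw [hq]; push_cast [Nat.cast_sub (show 1 ≤ p by omega)]; ring
  have hcR : (B.card : ℝ) = p - 1 := by
    rw [hc]; push_cast [Nat.cast_sub (show 1 ≤ p by omega)]; ring
  set f : ℕ → ℝ := fun x => (win B H x : ℝ) with hf
  set μ : ℝ := H / p with hμ
  -- moments
  have m1 : ∑ x ∈ range (q + H), f x = H * (p - 1) := by
    rw [← hcR]
    simp only [hf]
    exact_mod_cast sum_win B H q hB
  have m2 : ∑ x ∈ range (q + H), f x ^ 2 ≤ H * (p - 1) + H ^ 2 := by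
    have := sum_win_sq B H (q + H) hS
    rw [← m1]
    simp only [hf]
    exact_mod_cast this
  set V : ℝ := ∑ x ∈ range (q + H), (f x - μ) ^ 2 with hV
  have hVle : V ≤ H * p + H ^ 2 / p + H ^ 3 / p ^ 2 := by
    have e1 : V = ∑ x ∈ range (q + H), f x ^ 2 - 2 * μ * ∑ x ∈ range (q + H), f x +
        μ ^ 2 * (q + H) := by
      rw [hV, mul_sum, ← sum_sub_distrib]
      have : μ ^ 2 * ((q : ℝ) + H) = ∑ x ∈ range (q + H), μ ^ 2 := by
        rw [sum_const, card_range, nsmul_eq_mul]; push_cast; ring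
      rw [this, ← sum_add_distrib]
      refine sum_congr rfl fun x _ => ?_
      ring
    rw [e1, m1, hqR, hμ]
    have e2 : 2 * ((H : ℝ) / p) * (H * (p - 1)) = 2 * H ^ 2 - 2 * H ^ 2 / p := by
      field_simp
    have e3 : ((H : ℝ) / p) ^ 2 * (p * (p - 1) + H) = H ^ 2 - H ^ 2 / p + H ^ 3 / p ^ 2 := by
      field_simp
    rw [e2, e3]
    have : (H : ℝ) * (p - 1) ≤ H * p := by nlinarith
    have e4 : 2 * (H : ℝ) ^ 2 / p = H ^ 2 / p + H ^ 2 / p := by ring
    linarith
  have hV0 : 0 ≤ V := sum_nonneg fun x _ => sq_nonneg _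
  -- Cauchy-Schwarz
  have cs : ∀ z, z ≤ q + H → |∑ x ∈ range z, (f x - μ)| ≤
      Real.sqrt ((p ^ 2 + H) * (H * p + H ^ 2 / p + H ^ 3 / p ^ 2)) := by
    intro z hz
    refine Real.abs_le_sqrt ?_
    have h1 := sq_sum_le_card_mul_sum_sq (s := range z) (f := fun x => f x - μ)
    rw [card_range] at h1
    have h2 : ∑ x ∈ range z, (f x - μ) ^ 2 ≤ V := by
      refine sum_le_sum_of_subset_of_nonneg ?_ fun x _ _ => sq_nonneg _
      intro x hx
      rw [mem_range] at hx ⊢; omega
    have h3 : (z : ℝ) ≤ p ^ 2 + H := by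
      have : (z : ℝ) ≤ q + H := by exact_mod_cast hz
      rw [hqR] at this
      nlinarith
    calc _ ≤ (z : ℝ) * ∑ x ∈ range z, (f x - μ) ^ 2 := h1
      _ ≤ (p ^ 2 + H) * (H * p + H ^ 2 / p + H ^ 3 / p ^ 2) := by
        refine mul_le_mul h3 (h2.trans hVle) (sum_nonneg fun x _ => sq_nonneg _) (by positivity)
  -- comparison
  have up : ∀ z, ∑ x ∈ range z, f x ≤ H * cnt B z := by
    intro z
    have : ∑ x ∈ range z, win B H x ≤ H * cnt B z := by
      unfold win cnt
      simp_rw [card_filter]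
      rw [sum_comm, mul_sum]
      refine sum_le_sum fun b _ => ?_
      by_cases hb : b < z
      · rw [if_pos hb, mul_one, ← card_filter]
        calc _ ≤ (Ico b (b + H)).card := card_le_card fun x hx => by
              simp only [mem_filter, mem_range, mem_Ico] at hx ⊢; omega
          _ = H := by simp
      · rw [if_neg hb, mul_zero, ← card_filter]
        have : (range z).filter (fun x => b ≤ x ∧ x < b + H) = ∅ := by
          ext x; simp only [mem_filter, mem_range, notMem_empty, iff_false]; omega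
        rw [this]; simp
    simp only [hf]; exact_mod_cast this
  have low : ∀ z, H * (cnt B z : ℝ) ≤ ∑ x ∈ range (z + H), f x := by
    intro z
    have : H * cnt B z ≤ ∑ x ∈ range (z + H), win B H x := by
      unfold win cnt
      simp_rw [card_filter]
      rw [sum_comm, mul_sum]
      refine sum_le_sum fun b _ => ?_
      by_cases hb : b < z
      · rw [if_pos hb, mul_one, ← card_filter]
        calc H = (Ico b (b + H)).card := by simp
          _ ≤ _ := card_le_card fun x hx => by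
              simp only [mem_filter, mem_range, mem_Ico] at hx ⊢; omega
      · rw [if_neg hb, mul_zero]; exact Nat.zero_le _
    simp only [hf]; exact_mod_cast this
  set E := Real.sqrt ((p ^ 2 + H) * (H * p + H ^ 2 / p + H ^ 3 / p ^ 2)) with hE
  have c1 := (abs_le.mp (cs y (by omega))).1
  have c2 := (abs_le.mp (cs (y + H) (by omega))).2
  rw [sum_sub_distrib, sum_const, card_range, nsmul_eq_mul] at c1 c2
  have u1 := up y
  have l1 := low y
  have hEH : E / H * H = E := by field_simp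
  have hμH : (y : ℝ) * μ = y / p * H := by rw [hμ]; ring
  rw [abs_le]
  constructor
  · have h1 : -(E / H) * H ≤ ((cnt B y : ℝ) - y / p) * H := by
      have : -(E / H) * H = -E := by linarith
      rw [this]; linarith
    have h2 := le_of_mul_le_mul_right h1 hH0
    have h3 : 0 ≤ (H : ℝ) / p := by positivity
    linarith
  · push_cast at c2
    have h1 : ((cnt B y : ℝ) - y / p) * H ≤ ((H : ℝ) / p + E / H) * H := by
      have e1 : ((H : ℝ) / p + E / H) * H = H * μ + E := by rw [hμ]; field_simp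
      rw [e1]; linarith
    exact le_of_mul_le_mul_right h1 hH0

theorem equi (ε : ℝ) (hε : 0 < ε) : ∃ p0 : ℕ, ∀ p ≥ p0, ∀ B : Finset ℕ, IsSidonN B →
    B.card = p - 1 → (∀ b ∈ B, b < p * (p - 1)) → ∀ y ≤ p * (p - 1),
      |(cnt B y : ℝ) - y / p| ≤ ε * p := by
  -- choose K with sqrt (8 / K) ≤ ε / 2
  obtain ⟨K, hK⟩ := exists_nat_ge (32 / ε ^ 2 + 1)
  have hK1 : (1 : ℝ) ≤ K := by
    have : 0 < 32 / ε ^ 2 := by positivity
    linarith
  have hK0 : (0 : ℝ) < K := by linarith
  have hKn : 0 < K := by exact_mod_cast hK0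
  obtain ⟨p1, hp1⟩ := exists_nat_ge (2 * K / ε + K ^ 2)
  refine ⟨max p1 2, fun p hp B hS hc hB y hy => ?_⟩
  have hp2 : 2 ≤ p := (le_max_right _ _).trans hp
  have hpp : (p1 : ℝ) ≤ p := by exact_mod_cast (le_max_left _ _).trans hp
  have hp0 : (0 : ℝ) < p := by positivity
  have hpK : (2 * K / ε + K ^ 2 : ℝ) ≤ p := hp1.trans hpp
  have hpos : (0 : ℝ) < 2 * K / ε := by positivity
  have hK2p : (K : ℝ) ^ 2 ≤ p := by nlinarith
  have hKp : (K : ℝ) ≤ p := by nlinarith
  have h := cnt_bound B p (K * p) hp2 (by positivity) hS hc hB y hy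
  refine h.trans ?_
  push_cast
  have e1 : (K : ℝ) * p / p = K := by field_simp
  rw [e1]
  have b1 : (K : ℝ) ≤ ε / 2 * p := by
    have : 2 * K / ε ≤ p := by nlinarith [sq_nonneg (K : ℝ)]
    rw [div_le_iff₀ hε] at this
    linarith
  have b2 : ((p : ℝ) ^ 2 + K * p) * (K * p * p + (K * p) ^ 2 / p + (K * p) ^ 3 / p ^ 2) ≤
      8 * K * p ^ 4 := by
    have e2 : (K * p : ℝ) ^ 2 / p = K ^ 2 * p := by field_simp
    have e3 : (K * p : ℝ) ^ 3 / p ^ 2 = K ^ 3 * p := by field_simp
    rw [e2, e3]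
    have f1 : (p : ℝ) ^ 2 + K * p ≤ 2 * p ^ 2 := by nlinarith
    have f2 : (K : ℝ) * p * p + K ^ 2 * p + K ^ 3 * p ≤ 4 * K * p ^ 2 := by
      have g1 : (K : ℝ) ^ 2 * p ≤ K * p ^ 2 := by
        have := mul_le_mul_of_nonneg_left hKp (show (0 : ℝ) ≤ K * p by positivity)
        nlinarith
      have g2 : (K : ℝ) ^ 3 * p ≤ K * p ^ 2 := by
        have := mul_le_mul_of_nonneg_left hK2p (show (0 : ℝ) ≤ K * p by positivity)
        nlinarith
      have g3 : (0 : ℝ) ≤ K * p ^ 2 := by positivity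
      nlinarith
    calc _ ≤ (2 * (p : ℝ) ^ 2) * (4 * K * p ^ 2) := mul_le_mul f1 f2 (by positivity) (by positivity)
      _ = _ := by ring
  have b3 : Real.sqrt (((p : ℝ) ^ 2 + K * p) * (K * p * p + (K * p) ^ 2 / p + (K * p) ^ 3 / p ^ 2)) ≤
      ε / 2 * p * (K * p) := by
    rw [Real.sqrt_le_left (by positivity)]
    refine b2.trans ?_
    have : 32 ≤ ε ^ 2 * K := by
      have h1 : 32 / ε ^ 2 ≤ K := by linarith
      rw [div_le_iff₀ (by positivity)] at h1
      linarith
    have e4 : (ε / 2 * p * (K * p)) ^ 2 = (ε ^ 2 * K) * (K * p ^ 4) / 4 := by ring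
    rw [e4]
    have := mul_le_mul_of_nonneg_right this (show (0 : ℝ) ≤ K * p ^ 4 by positivity)
    nlinarith
  have b4 : Real.sqrt (((p : ℝ) ^ 2 + K * p) * (K * p * p + (K * p) ^ 2 / p + (K * p) ^ 3 / p ^ 2)) /
      (K * p) ≤ ε / 2 * p := by
    rw [div_le_iff₀ (by positivity)]
    exact b3
  linarith

end Pool.Agent.Work.MP_d0c231_co
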