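import Mathlib
import Pool.Agent.Work.MP_d0c231_co.Equi

/-!
Counting sums of elements of equidistributed sets.
-/

namespace Pool.Agent.Work.MP_d0c231_co

open Finset

/-- Abel summation -/
theorem sum_phi_le (C : Finset ℕ) (p δ : ℝ) (q : ℕ) (hC : ∀ y ≤ q, (cnt C y : ℝ) ≤ y / p + δ)
    (φ : ℕ → ℝ) (h0 : φ 0 = 0) (hm : Monotone φ) (y : ℕ) (hy : y ≤ q) :
    ∑ c ∈ C.filter (fun c => c < y), φ (y - c) ≤ (∑ j ∈ range y, φ (j + 1)) / p + δ * φ y := by
  have e1 : ∑ c ∈ C.filter (fun c => c < y), φ (y - c) =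
      ∑ i ∈ range y, (φ (i + 1) - φ i) * cnt C (y - i) := by
    have : ∀ c ∈ C.filter (fun c => c < y), φ (y - c) =
        ∑ i ∈ range y, (if c < y - i then (φ (i + 1) - φ i) else 0) := by
      intro c hc
      rw [mem_filter] at hc
      rw [← sum_filter]
      have h1 : (range y).filter (fun i => c < y - i) = range (y - c) := by
        ext i; simp only [mem_filter, mem_range]; omega
      rw [h1, sum_range_sub, h0, sub_zero]
    rw [sum_congr rfl this, sum_comm]
    refine sum_congr rfl fun i _ => ?_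
    rw [← sum_filter, sum_const, nsmul_eq_mul, mul_comm]
    congr 2
    unfold cnt
    congr 1
    ext c
    simp only [mem_filter]
    constructor
    · rintro ⟨⟨h1, _⟩, h2⟩; exact ⟨h1, h2⟩
    · rintro ⟨h1, h2⟩; exact ⟨⟨h1, by omega⟩, h2⟩
  rw [e1]
  have e2 : ∑ i ∈ range y, (φ (i + 1) - φ i) * cnt C (y - i) ≤
      ∑ i ∈ range y, (φ (i + 1) - φ i) * (((y - i : ℕ) : ℝ) / p + δ) := by
    refine sum_le_sum fun i _ => ?_
    exact mul_le_mul_of_nonneg_left (hC _ (by omega)) (sub_nonneg.mpr (hm (by omega)))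
  refine e2.trans (le_of_eq ?_)
  have e3 : ∀ z : ℕ, ∑ i ∈ range z, (φ (i + 1) - φ i) * ((z - i : ℕ) : ℝ) =
      ∑ j ∈ range z, φ (j + 1) := by
    intro z
    induction z with
    | zero => simp
    | succ z ih =>
      rw [sum_range_succ, sum_range_succ, ← ih]
      have : ∑ i ∈ range z, (φ (i + 1) - φ i) * ((z + 1 - i : ℕ) : ℝ) =
          ∑ i ∈ range z, (φ (i + 1) - φ i) * ((z - i : ℕ) : ℝ) + ∑ i ∈ range z, (φ (i + 1) - φ i) := by
        rw [← sum_add_distrib]
        refine sum_congr rfl fun i hi => ?_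
        rw [mem_range] at hi
        rw [show z + 1 - i = (z - i) + 1 by omega]
        push_cast; ring
      rw [this, sum_range_sub, h0]
      rw [show z + 1 - z = 1 by omega]
      push_cast; ring
  have e4 : ∑ i ∈ range y, (φ (i + 1) - φ i) * (((y - i : ℕ) : ℝ) / p + δ) =
      (∑ i ∈ range y, (φ (i + 1) - φ i) * ((y - i : ℕ) : ℝ)) / p +
        δ * ∑ i ∈ range y, (φ (i + 1) - φ i) := by
    rw [sum_div, mul_sum, ← sum_add_distrib]
    refine sum_congr rfl fun i _ => ?_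
    ring
  rw [e4, e3, sum_range_sub, h0, sub_zero]

/-- pairs with small sum -/
def N2 (C D : Finset ℕ) (y : ℕ) : ℕ := ((C ×ˢ D).filter (fun t => t.1 + t.2 < y)).card

/-- triples with small sum -/
def N3 (C D E : Finset ℕ) (y : ℕ) : ℕ :=
  ((C ×ˢ (D ×ˢ E)).filter (fun t => t.1 + (t.2.1 + t.2.2) < y)).card

theorem N2_eq (C D : Finset ℕ) (y : ℕ) :
    N2 C D y = ∑ c ∈ C.filter (fun c => c < y), cnt D (y - c) := by
  unfold N2
  rw [card_filter, sum_product, sum_filter]
  refine sum_congr rfl fun c _ => ?_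
  by_cases hc : c < y
  · rw [if_pos hc]
    unfold cnt
    rw [card_filter]
    refine sum_congr rfl fun d _ => ?_
    congr 1
    simp only [eq_iff_iff]; omega
  · rw [if_neg hc]
    refine sum_eq_zero fun d _ => if_neg ?_
    omega

theorem N3_eq (C D E : Finset ℕ) (y : ℕ) :
    N3 C D E y = ∑ c ∈ C.filter (fun c => c < y), N2 D E (y - c) := by
  unfold N3
  rw [card_filter, sum_product, sum_filter]
  refine sum_congr rfl fun c _ => ?_
  by_cases hc : c < y
  · rw [if_pos hc]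
    unfold N2
    rw [card_filter]
    refine sum_congr rfl fun d _ => ?_
    congr 1
    simp only [eq_iff_iff]; omega
  · rw [if_neg hc]
    refine sum_eq_zero fun d _ => if_neg ?_
    omega

theorem sum_lin (y : ℕ) : ∑ j ∈ range y, ((j + 1 : ℕ) : ℝ) = y * (y + 1) / 2 := by
  induction y with
  | zero => simp
  | succ z ih => rw [sum_range_succ, ih]; push_cast; ring

theorem sum_quad (y : ℕ) : ∑ j ∈ range y, ((j + 1 : ℕ) : ℝ) ^ 2 = y * (y + 1) * (2 * y + 1) / 6 := by
  induction y with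
  | zero => simp
  | succ z ih => rw [sum_range_succ, ih]; push_cast; ring

theorem N2_le (C D : Finset ℕ) (p δ : ℝ) (hp : 0 < p) (hδ : 0 ≤ δ) (q : ℕ)
    (hC : ∀ y ≤ q, (cnt C y : ℝ) ≤ y / p + δ) (hD : ∀ y ≤ q, (cnt D y : ℝ) ≤ y / p + δ)
    (y : ℕ) (hy : y ≤ q) :
    (N2 C D y : ℝ) ≤ y * (y + 1) / (2 * p ^ 2) + 2 * δ * (y / p) + δ ^ 2 := by
  rw [N2_eq]
  push_cast
  have h1 : ∑ c ∈ C.filter (fun c => c < y), (cnt D (y - c) : ℝ) ≤
      ∑ c ∈ C.filter (fun c => c < y), ((fun j : ℕ => (j : ℝ) / p) (y - c)) + δ * cnt C y := by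
    have : δ * cnt C y = ∑ c ∈ C.filter (fun c => c < y), δ := by
      rw [sum_const, nsmul_eq_mul, mul_comm]; rfl
    rw [this, ← sum_add_distrib]
    refine sum_le_sum fun c _ => ?_
    exact hD _ (by omega)
  have h2 := sum_phi_le C p δ q hC (fun j : ℕ => (j : ℝ) / p) (by simp)
    (fun a b hab => by
      have : (a : ℝ) ≤ b := by exact_mod_cast hab
      simp only
      gcongr) y hy
  have h3 : ∑ j ∈ range y, ((fun j : ℕ => (j : ℝ) / p) (j + 1)) = y * (y + 1) / 2 / p := by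
    rw [← sum_lin, sum_div]
  rw [h3] at h2
  have h4 := mul_le_mul_of_nonneg_left (hC y hy) hδ
  have h5 : (y : ℝ) * (y + 1) / 2 / p / p = y * (y + 1) / (2 * p ^ 2) := by
    field_simp
  rw [h5] at h2
  simp only at h1
  nlinarith

theorem N3_le (C D E : Finset ℕ) (p δ M : ℝ) (hp : 0 < p) (hδ : 0 ≤ δ) (hM : 0 ≤ M) (q : ℕ)
    (hC : ∀ y ≤ q, (cnt C y : ℝ) ≤ y / p + δ) (hN : ∀ y ≤ q, (N2 D E y : ℝ) ≤ y ^ 2 / (2 * p ^ 2) + M)
    (y : ℕ) (hy : y ≤ q) :
    (N3 C D E y : ℝ) ≤ y * (y + 1) * (2 * y + 1) / (12 * p ^ 3) + δ * (y ^ 2 / (2 * p ^ 2)) +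
      M * (y / p + δ) := by
  rw [N3_eq]
  push_cast
  have h1 : ∑ c ∈ C.filter (fun c => c < y), (N2 D E (y - c) : ℝ) ≤
      ∑ c ∈ C.filter (fun c => c < y), ((fun j : ℕ => (j : ℝ) ^ 2 / (2 * p ^ 2)) (y - c)) +
        M * cnt C y := by
    have : M * cnt C y = ∑ c ∈ C.filter (fun c => c < y), M := by
      rw [sum_const, nsmul_eq_mul, mul_comm]; rfl
    rw [this, ← sum_add_distrib]
    refine sum_le_sum fun c _ => ?_
    exact hN _ (by omega)
  have h2 := sum_phi_le C p δ q hC (fun j : ℕ => (j : ℝ) ^ 2 / (2 * p ^ 2)) (by simp)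
    (fun a b hab => by
      have : (a : ℝ) ≤ b := by exact_mod_cast hab
      simp only
      gcongr) y hy
  have h3 : ∑ j ∈ range y, ((fun j : ℕ => (j : ℝ) ^ 2 / (2 * p ^ 2)) (j + 1)) =
      y * (y + 1) * (2 * y + 1) / 6 / (2 * p ^ 2) := by
    rw [← sum_quad, sum_div]
  rw [h3] at h2
  have h4 := mul_le_mul_of_nonneg_left (hC y hy) hM
  have h5 : (y : ℝ) * (y + 1) * (2 * y + 1) / 6 / (2 * p ^ 2) / p =
      y * (y + 1) * (2 * y + 1) / (12 * p ^ 3) := by
    field_simp; ring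
  rw [h5] at h2
  simp only at h1
  linarith

/-- quadruples with sum in a window -/
theorem window_le (C D E B : Finset ℕ) (p δ : ℝ) (hp : 0 < p) (q : ℕ)
    (hB : ∀ y ≤ q, |(cnt B y : ℝ) - y / p| ≤ δ) (T W : ℕ) (hT : T ≤ q) :
    ((((C ×ˢ (D ×ˢ E)) ×ˢ B).filter (fun t => T ≤ (t.1.1 + (t.1.2.1 + t.1.2.2)) + t.2 + W ∧
      (t.1.1 + (t.1.2.1 + t.1.2.2)) + t.2 < T)).card : ℝ) ≤ N3 C D E T * (W / p + 2 * δ) := by
  rw [card_filter, sum_product]
  push_cast
  have h1 : ∀ t ∈ C ×ˢ (D ×ˢ E), (∑ b ∈ B, if T ≤ (t.1 + (t.2.1 + t.2.2)) + b + W ∧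
      (t.1 + (t.2.1 + t.2.2)) + b < T then (1 : ℝ) else 0) ≤
      if t.1 + (t.2.1 + t.2.2) < T then (W / p + 2 * δ) else 0 := by
    intro t _
    set σ := t.1 + (t.2.1 + t.2.2) with hσ
    by_cases hs : σ < T
    · rw [if_pos hs]
      have e1 : (∑ b ∈ B, if T ≤ σ + b + W ∧ σ + b < T then (1 : ℝ) else 0) =
          (cnt B (T - σ) : ℝ) - cnt B (T - σ - W) := by
        have hsub : B.filter (fun b => b < T - σ - W) ⊆ B.filter (fun b => b < T - σ) := by
          intro b hb; rw [mem_filter] at hb ⊢; exact ⟨hb.1, by omega⟩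
        have e2 : B.filter (fun b => T ≤ σ + b + W ∧ σ + b < T) =
            B.filter (fun b => b < T - σ) \ B.filter (fun b => b < T - σ - W) := by
          ext b
          simp only [mem_filter, mem_sdiff]
          constructor
          · rintro ⟨h1, h2, h3⟩
            refine ⟨⟨h1, by omega⟩, fun h => ?_⟩
            have := h.2; omega
          · rintro ⟨⟨h1, h2⟩, h3⟩
            refine ⟨h1, ?_, by omega⟩
            by_contra h4
            exact h3 ⟨h1, by omega⟩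
        rw [← sum_filter, sum_const, nsmul_eq_mul, mul_one, e2, card_sdiff_of_subset hsub,
          Nat.cast_sub (card_le_card hsub)]
        rfl
      rw [e1]
      have b1 := (abs_le.mp (hB (T - σ) (by omega))).2
      have b2 := (abs_le.mp (hB (T - σ - W) (by omega))).1
      have b3 : ((T - σ : ℕ) : ℝ) ≤ ((T - σ - W : ℕ) : ℝ) + W := by
        have : T - σ ≤ (T - σ - W) + W := by omega
        exact_mod_cast this
      have b4 : ((T - σ : ℕ) : ℝ) / p ≤ ((T - σ - W : ℕ) : ℝ) / p + W / p := by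
        rw [← add_div]; gcongr
      linarith
    · rw [if_neg hs]
      refine le_of_eq (sum_eq_zero fun b _ => if_neg ?_)
      omega
  refine (sum_le_sum h1).trans (le_of_eq ?_)
  rw [← sum_filter, sum_const, nsmul_eq_mul]
  rfl

/-- the reflected set -/
def refl (q : ℕ) (B : Finset ℕ) : Finset ℕ := B.image (fun b => q - b)

theorem cnt_refl_le (B : Finset ℕ) (p : ℕ) (hp : 2 ≤ p) (δ : ℝ)
    (hc : B.card = p - 1) (hB : ∀ b ∈ B, 1 ≤ b ∧ b < p * (p - 1))
    (hE : ∀ y ≤ p * (p - 1), |(cnt B y : ℝ) - y / p| ≤ δ) (y : ℕ) (hy : y ≤ p * (p - 1)) :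
    (cnt (refl (p * (p - 1)) B) y : ℝ) ≤ y / p + δ := by
  set q := p * (p - 1) with hq
  have hp0 : (0 : ℝ) < p := by positivity
  have hqR : (q : ℝ) = p * (p - 1) := by
    rw [hq]; push_cast [Nat.cast_sub (show 1 ≤ p by omega)]; ring
  have hδ : 0 ≤ δ := (abs_nonneg _).trans (hE 0 (Nat.zero_le _))
  have h1 : cnt (refl q B) y + cnt B (q - y + 1) ≤ p - 1 ∨ y = 0 := by
    rcases Nat.eq_zero_or_pos y with h0 | h0
    · exact Or.inr h0
    left
    rw [← hc]
    have e1 : cnt (refl q B) y ≤ (B.filter (fun b => ¬ b < q - y + 1)).card := by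
      unfold cnt refl
      rw [filter_image]
      refine card_image_le.trans (card_le_card fun b hb => ?_)
      rw [mem_filter] at hb ⊢
      have := hB b hb.1
      exact ⟨hb.1, by omega⟩
    have e2 := card_filter_add_card_filter_not (s := B) (fun b => b < q - y + 1)
    unfold cnt at *
    omega
  rcases h1 with h1 | h1
  · rcases Nat.eq_zero_or_pos y with h0 | h0
    · subst h0
      unfold cnt; simp; exact hδ
    have h2 : (cnt (refl q B) y : ℝ) + cnt B (q - y + 1) ≤ p - 1 := by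
      have : ((p - 1 : ℕ) : ℝ) = p - 1 := by push_cast [Nat.cast_sub (show 1 ≤ p by omega)]; ring
      rw [← this]; exact_mod_cast h1
    have h3 := (abs_le.mp (hE (q - y + 1) (by omega))).1
    have h4 : ((q - y + 1 : ℕ) : ℝ) = p * (p - 1) - y + 1 := by
      push_cast [Nat.cast_sub hy]; rw [hqR]
    rw [h4] at h3
    have h5 : ((p : ℝ) * (p - 1) - y + 1) / p = p - 1 - y / p + 1 / p := by
      field_simp
    rw [h5] at h3
    have : 0 < 1 / (p : ℝ) := by positivity
    linarith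
  · subst h1
    unfold cnt; simp; exact hδ

end Pool.Agent.Work.MP_d0c231_co
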