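import Mathlib
import Pool.Agent.Work.MP_d0c231_co.Count

/-!
The sumset of `B ∪ (m - B)`.
-/

namespace Pool.Agent.Work.MP_d0c231_co

open Finset
open scoped Pointwise

/-- quadruples `b₁ + b₂ + b₄ = m + b₃` -/
def quad (B : Finset ℕ) (m : ℕ) : Finset ((ℕ × (ℕ × ℕ)) × ℕ) :=
  ((B ×ˢ (B ×ˢ B)) ×ˢ B).filter (fun t => t.1.1 + (t.1.2.1 + t.1.2.2) = m + t.2)

/-- quadruples with `b₁ < b₂` -/
def quadlt (B : Finset ℕ) (m : ℕ) : Finset ((ℕ × (ℕ × ℕ)) × ℕ) :=
  (quad B m).filter (fun t => t.1.1 < t.1.2.1)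

theorem two_quadlt (B : Finset ℕ) (m : ℕ) : 2 * (quadlt B m).card ≤ (quad B m).card := by
  have h1 : (quadlt B m).card = ((quad B m).filter (fun t => t.1.2.1 < t.1.1)).card := by
    refine card_bij (fun t _ => ((t.1.2.1, (t.1.1, t.1.2.2)), t.2)) ?_ ?_ ?_
    · rintro ⟨⟨a, b, c⟩, d⟩ h
      simp only [quadlt, quad, mem_filter, mem_product] at h ⊢
      refine ⟨⟨⟨⟨h.1.1.1.2.1, h.1.1.1.1, h.1.1.1.2.2⟩, h.1.1.2⟩, by omega⟩, by omega⟩
    · rintro ⟨⟨a, b, c⟩, d⟩ _ ⟨⟨a', b', c'⟩, d'⟩ _ h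
      simp only [Prod.mk.injEq] at h ⊢
      tauto
    · rintro ⟨⟨a, b, c⟩, d⟩ h
      simp only [quad, mem_filter, mem_product] at h
      refine ⟨((b, (a, c)), d), ?_, rfl⟩
      simp only [quadlt, quad, mem_filter, mem_product]
      refine ⟨⟨⟨⟨h.1.1.1.2.1, h.1.1.1.1, h.1.1.1.2.2⟩, h.1.1.2⟩, by omega⟩, by omega⟩
  have h2 : Disjoint (quadlt B m) ((quad B m).filter (fun t => t.1.2.1 < t.1.1)) := by
    rw [disjoint_left]
    intro t h h'
    simp only [quadlt, mem_filter] at h h'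
    omega
  have h3 : quadlt B m ∪ (quad B m).filter (fun t => t.1.2.1 < t.1.1) ⊆ quad B m := by
    intro t ht
    rw [mem_union] at ht
    rcases ht with ht | ht
    · exact (mem_filter.mp ht).1
    · exact (mem_filter.mp ht).1
  have h4 := card_le_card h3
  rw [card_union_of_disjoint h2] at h4
  omega

/-- increasing pairs -/
def incr (B : Finset ℕ) : Finset (ℕ × ℕ) := (B ×ˢ B).filter (fun t => t.1 < t.2)

theorem two_incr (B : Finset ℕ) : 2 * (incr B).card = B.card * B.card - B.card := by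
  rw [← offDiag_card]
  have h1 : (incr B).card = ((B ×ˢ B).filter (fun t => t.2 < t.1)).card := by
    refine card_bij (fun t _ => (t.2, t.1)) ?_ ?_ ?_
    · rintro ⟨a, b⟩ h
      simp only [incr, mem_filter, mem_product] at h ⊢
      tauto
    · rintro ⟨a, b⟩ _ ⟨a', b'⟩ _ h
      simp only [Prod.mk.injEq] at h ⊢
      tauto
    · rintro ⟨a, b⟩ h
      simp only [mem_filter, mem_product] at h
      refine ⟨(b, a), ?_, rfl⟩
      simp only [incr, mem_filter, mem_product]
      tauto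
  have h2 : Disjoint (incr B) ((B ×ˢ B).filter (fun t => t.2 < t.1)) := by
    rw [disjoint_left]
    intro t h h'
    simp only [incr, mem_filter] at h h'
    omega
  have h3 : B.offDiag = incr B ∪ (B ×ˢ B).filter (fun t => t.2 < t.1) := by
    ext ⟨a, b⟩
    simp only [incr, mem_filter, mem_product, mem_offDiag, mem_union]
    constructor
    · rintro ⟨h1, h2, h3⟩
      rcases lt_or_gt_of_ne h3 with h | h
      · exact Or.inl ⟨⟨h1, h2⟩, h⟩
      · exact Or.inr ⟨⟨h1, h2⟩, h⟩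
    · rintro (⟨⟨h1, h2⟩, h3⟩ | ⟨⟨h1, h2⟩, h3⟩)
      · exact ⟨h1, h2, by omega⟩
      · exact ⟨h1, h2, by omega⟩
  rw [h3, card_union_of_disjoint h2]
  omega

theorem two_low (B : Finset ℕ) (y : ℕ) :
    2 * ((incr B).filter (fun t => t.1 + t.2 < y)).card ≤ N2 B B y := by
  have h1 : ((incr B).filter (fun t => t.1 + t.2 < y)).card =
      ((B ×ˢ B).filter (fun t => t.2 < t.1 ∧ t.1 + t.2 < y)).card := by
    refine card_bij (fun t _ => (t.2, t.1)) ?_ ?_ ?_
    · rintro ⟨a, b⟩ h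
      simp only [incr, mem_filter, mem_product] at h ⊢
      refine ⟨⟨h.1.1.2, h.1.1.1⟩, h.1.2, by omega⟩
    · rintro ⟨a, b⟩ _ ⟨a', b'⟩ _ h
      simp only [Prod.mk.injEq] at h ⊢
      tauto
    · rintro ⟨a, b⟩ h
      simp only [mem_filter, mem_product] at h
      refine ⟨(b, a), ?_, rfl⟩
      simp only [incr, mem_filter, mem_product]
      refine ⟨⟨⟨h.1.2, h.1.1⟩, h.2.1⟩, by omega⟩
  have h2 : Disjoint ((incr B).filter (fun t => t.1 + t.2 < y))
      ((B ×ˢ B).filter (fun t => t.2 < t.1 ∧ t.1 + t.2 < y)) := by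
    rw [disjoint_left]
    intro t h h'
    simp only [incr, mem_filter] at h h'
    omega
  have h3 : (incr B).filter (fun t => t.1 + t.2 < y) ∪
      (B ×ˢ B).filter (fun t => t.2 < t.1 ∧ t.1 + t.2 < y) ⊆
      (B ×ˢ B).filter (fun t => t.1 + t.2 < y) := by
    intro t ht
    rw [mem_union] at ht
    simp only [incr, mem_filter] at ht ⊢
    tauto
  have h4 := card_le_card h3
  rw [card_union_of_disjoint h2] at h4
  unfold N2
  omega

theorem union_bound (B : Finset ℕ) (q m n : ℕ) (hS : IsSidonN B)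
    (hB : ∀ b ∈ B, 1 ≤ b ∧ b < q) (hm : 2 * q ≤ m) (hn : m + q ≤ n)
    (hmn : n ≤ 2 * m) :
    4 * (B.card * B.card - B.card) ≤
      2 * (((B ∪ B.image (fun b => m - b)) + (B ∪ B.image (fun b => m - b))).filter
        (fun s => s ≤ n)).card + 2 * (quad B m).card + N2 B B (2 * m - n) := by
  set A := B ∪ B.image (fun b => m - b) with hA
  set S1 : Finset ℕ := (incr B).image (fun t => t.1 + t.2) with hS1
  set S2 : Finset ℕ := B.offDiag.image (fun t => m + t.1 - t.2) with hS2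
  set S3 : Finset ℕ := ((incr B).filter (fun t => ¬ t.1 + t.2 < 2 * m - n)).image
    (fun t => 2 * m - (t.1 + t.2)) with hS3
  have mB : ∀ {b}, b ∈ B → b ∈ A := fun h => mem_union_left _ h
  have mB' : ∀ {b}, b ∈ B → m - b ∈ A := fun h => mem_union_right _ (mem_image_of_mem _ h)
  -- cardinalities
  have c1 : S1.card = (incr B).card := by
    refine card_image_of_injOn ?_
    rintro ⟨a, b⟩ h ⟨a', b'⟩ h' e
    simp only [incr, coe_filter, mem_product, Set.mem_ofPred_eq] at h h'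
    simp only at e
    rcases hS a h.1.1 b h.1.2 a' h'.1.1 b' h'.1.2 e with h1 | h1
    · rw [h1.1, h1.2]
    · omega
  have c2 : S2.card = B.card * B.card - B.card := by
    rw [← offDiag_card]
    refine card_image_of_injOn ?_
    rintro ⟨a, b⟩ h ⟨a', b'⟩ h' e
    simp only [coe_offDiag, Set.mem_offDiag, mem_coe] at h h'
    simp only at e
    have l1 := hB a h.1
    have l2 := hB b h.2.1
    have l3 := hB a' h'.1
    have l4 := hB b' h'.2.1
    rcases hS a h.1 b' h'.2.1 a' h'.1 b h.2.1 (by omega) with h1 | h1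
    · rw [h1.1, h1.2]
    · exact absurd h1.1 h.2.2
  have c3 : S3.card = ((incr B).filter (fun t => ¬ t.1 + t.2 < 2 * m - n)).card := by
    refine card_image_of_injOn ?_
    rintro ⟨a, b⟩ h ⟨a', b'⟩ h' e
    simp only [incr, coe_filter, mem_filter, mem_product, Set.mem_ofPred_eq] at h h'
    simp only at e
    have l1 := hB a h.1.1.1
    have l2 := hB b h.1.1.2
    have l3 := hB a' h'.1.1.1
    have l4 := hB b' h'.1.1.2
    rcases hS a h.1.1.1 b h.1.1.2 a' h'.1.1.1 b' h'.1.1.2 (by omega) with h1 | h1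
    · rw [h1.1, h1.2]
    · omega
  have c3' := card_filter_add_card_filter_not (s := incr B) (fun t => t.1 + t.2 < 2 * m - n)
  -- intersections
  have i12 : (S1 ∩ S2).card ≤ (quadlt B m).card := by
    refine (card_le_card (t := (quadlt B m).image (fun t => t.1.1 + t.1.2.1)) ?_).trans card_image_le
    intro s hs
    rw [mem_inter, hS1, hS2, mem_image, mem_image] at hs
    obtain ⟨⟨⟨a, b⟩, hab, e1⟩, ⟨⟨c, d⟩, hcd, e2⟩⟩ := hs
    simp only [incr, mem_filter, mem_product, mem_offDiag] at hab hcd e1 e2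
    have l1 := hB c hcd.1
    have l2 := hB d hcd.2.1
    rw [mem_image]
    refine ⟨((a, (b, d)), c), ?_, e1⟩
    simp only [quadlt, quad, mem_filter, mem_product]
    exact ⟨⟨⟨⟨hab.1.1, hab.1.2, hcd.2.1⟩, hcd.1⟩, by omega⟩, hab.2⟩
  have i23 : (S2 ∩ S3).card ≤ (quadlt B m).card := by
    refine (card_le_card (t := (quadlt B m).image (fun t => 2 * m - (t.1.1 + t.1.2.1))) ?_).trans
      card_image_le
    intro s hs
    rw [mem_inter, hS3, hS2, mem_image, mem_image] at hs
    obtain ⟨⟨⟨c, d⟩, hcd, e2⟩, ⟨⟨a, b⟩, hab, e1⟩⟩ := hs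
    simp only [incr, mem_filter, mem_product, mem_offDiag] at hab hcd e1 e2
    have l1 := hB c hcd.1
    have l2 := hB d hcd.2.1
    have l3 := hB a hab.1.1.1
    have l4 := hB b hab.1.1.2
    rw [mem_image]
    refine ⟨((a, (b, c)), d), ?_, e1⟩
    simp only [quadlt, quad, mem_filter, mem_product]
    exact ⟨⟨⟨⟨hab.1.1.1, hab.1.1.2, hcd.1⟩, hcd.2.1⟩, by omega⟩, hab.1.2⟩
  have i13 : Disjoint S1 S3 := by
    rw [disjoint_left]
    intro s hs hs'
    rw [hS1, mem_image] at hs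
    rw [hS3, mem_image] at hs'
    obtain ⟨⟨a, b⟩, hab, e1⟩ := hs
    obtain ⟨⟨c, d⟩, hcd, e2⟩ := hs'
    simp only [incr, mem_filter, mem_product] at hab hcd e1 e2
    have l1 := hB a hab.1.1
    have l2 := hB b hab.1.2
    have l3 := hB c hcd.1.1.1
    have l4 := hB d hcd.1.1.2
    omega
  -- inclusion
  have hsub : S1 ∪ S2 ∪ S3 ⊆ (A + A).filter (fun s => s ≤ n) := by
    intro s hs
    rw [mem_filter]
    rw [mem_union, mem_union, hS1, hS2, hS3, mem_image, mem_image, mem_image] at hs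
    rcases hs with (⟨⟨a, b⟩, hab, e⟩ | ⟨⟨a, b⟩, hab, e⟩) | ⟨⟨a, b⟩, hab, e⟩
    · simp only [incr, mem_filter, mem_product] at hab e
      have l1 := hB a hab.1.1
      have l2 := hB b hab.1.2
      exact ⟨mem_add.mpr ⟨a, mB hab.1.1, b, mB hab.1.2, e⟩, by omega⟩
    · simp only [mem_offDiag] at hab e
      have l1 := hB a hab.1
      have l2 := hB b hab.2.1
      exact ⟨mem_add.mpr ⟨a, mB hab.1, m - b, mB' hab.2.1, by omega⟩, by omega⟩
    · simp only [incr, mem_filter, mem_product] at hab e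
      have l1 := hB a hab.1.1.1
      have l2 := hB b hab.1.1.2
      exact ⟨mem_add.mpr ⟨m - a, mB' hab.1.1.1, m - b, mB' hab.1.1.2, by omega⟩, by omega⟩
  have hcard := card_le_card hsub
  have u1 := card_union_add_card_inter S1 S2
  have u2 := card_union_add_card_inter (S1 ∪ S2) S3
  have u3 : ((S1 ∪ S2) ∩ S3).card ≤ (S2 ∩ S3).card := by
    refine card_le_card fun s hs => ?_
    rw [mem_inter, mem_union] at hs
    rw [mem_inter]
    rcases hs with ⟨h1 | h1, h2⟩
    · exact absurd h2 (disjoint_left.mp i13 h1)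
    · exact ⟨h1, h2⟩
  have t1 := two_incr B
  have t2 := two_quadlt B m
  have t3 := two_low B (2 * m - n)
  omega

end Pool.Agent.Work.MP_d0c231_co
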