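import Mathlib
import Pool.Agent.Work.MP_d0c231_co.Union

/-!
The key estimate along primes.
-/

namespace Pool.Agent.Work.MP_d0c231_co

open Finset Filter Topology
open scoped Pointwise

theorem quad_sum_le (B : Finset ℕ) (q m0 W : ℕ) (hB : ∀ b ∈ B, 1 ≤ b ∧ b < q) (hm : m0 ≤ 3 * q) :
    ∑ m ∈ Ico m0 (m0 + W), (quad B m).card ≤
      ((((refl q B) ×ˢ ((refl q B) ×ˢ (refl q B))) ×ˢ B).filter
        (fun t => 3 * q + 1 - m0 ≤ (t.1.1 + (t.1.2.1 + t.1.2.2)) + t.2 + W ∧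
        (t.1.1 + (t.1.2.1 + t.1.2.2)) + t.2 < 3 * q + 1 - m0)).card := by
  set U := ((B ×ˢ (B ×ˢ B)) ×ˢ B).filter (fun t => m0 + t.2 ≤ t.1.1 + (t.1.2.1 + t.1.2.2) ∧
    t.1.1 + (t.1.2.1 + t.1.2.2) < m0 + W + t.2) with hU
  have h1 : ∑ m ∈ Ico m0 (m0 + W), (quad B m).card ≤ U.card := by
    have h2 : (U : Set ((ℕ × (ℕ × ℕ)) × ℕ)).MapsTo
        (fun t => t.1.1 + (t.1.2.1 + t.1.2.2) - t.2) (Ico m0 (m0 + W)) := by
      intro t ht
      rw [hU, coe_filter] at ht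
      have := ht.2
      simp only [coe_Ico, Set.mem_Ico]
      omega
    rw [card_eq_sum_card_fiberwise h2]
    refine sum_le_sum fun m hm => card_le_card fun t ht => ?_
    rw [mem_Ico] at hm
    simp only [quad, mem_filter] at ht
    simp only [hU, mem_filter]
    exact ⟨⟨ht.1, by omega, by omega⟩, by omega⟩
  refine h1.trans ?_
  refine card_le_card_of_injOn (fun t => ((q - t.1.1, (q - t.1.2.1, q - t.1.2.2)), t.2)) ?_ ?_
  · rintro ⟨⟨a, b, c⟩, d⟩ ht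
    simp only [hU, coe_filter, mem_product, Set.mem_ofPred_eq] at ht
    obtain ⟨⟨⟨ha, hb, hc⟩, hd⟩, h3, h4⟩ := ht
    have l1 := hB a ha
    have l2 := hB b hb
    have l3 := hB c hc
    have l4 := hB d hd
    simp only [coe_filter, mem_product, Set.mem_ofPred_eq]
    refine ⟨⟨⟨mem_image_of_mem _ ha, mem_image_of_mem _ hb, mem_image_of_mem _ hc⟩, hd⟩, ?_, ?_⟩
    · omega
    · omega
  · rintro ⟨⟨a, b, c⟩, d⟩ ht ⟨⟨a', b', c'⟩, d'⟩ ht' h
    simp only [hU, coe_filter, mem_product, Set.mem_ofPred_eq] at ht ht'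
    obtain ⟨⟨⟨ha, hb, hc⟩, hd⟩, _⟩ := ht
    obtain ⟨⟨⟨ha', hb', hc'⟩, hd'⟩, _⟩ := ht'
    have l1 := hB a ha
    have l2 := hB b hb
    have l3 := hB c hc
    have l1' := hB a' ha'
    have l2' := hB b' hb'
    have l3' := hB c' hc'
    simp only [Prod.mk.injEq] at h ⊢
    obtain ⟨⟨h1, h2, h3⟩, h4⟩ := h
    exact ⟨⟨by omega, by omega, by omega⟩, h4⟩

/-- there is a good reflection centre -/
theorem exists_centre (B : Finset ℕ) (p q m0 W : ℕ) (δ K : ℝ) (hp : 2 ≤ p) (hq : q = p * (p - 1))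
    (hc : B.card = p - 1) (hB : ∀ b ∈ B, 1 ≤ b ∧ b < q)
    (hE : ∀ y ≤ q, |(cnt B y : ℝ) - y / p| ≤ δ) (hm1 : 2 * q + 1 ≤ m0) (hm2 : m0 ≤ 3 * q)
    (hW : 0 < W) (hK : (N3 (refl q B) (refl q B) (refl q B) (3 * q + 1 - m0) : ℝ) ≤ K) :
    ∃ m, m0 ≤ m ∧ m < m0 + W ∧ ((quad B m).card : ℝ) ≤ K * (1 / p + 2 * δ / W) := by
  have hp0 : (0 : ℝ) < p := by positivity
  have hW0 : (0 : ℝ) < W := by exact_mod_cast hW
  by_contra hcon
  push Not at hcon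
  have h1 : ∑ m ∈ Ico m0 (m0 + W), (K * (1 / p + 2 * δ / W)) <
      ∑ m ∈ Ico m0 (m0 + W), ((quad B m).card : ℝ) := by
    refine sum_lt_sum_of_nonempty ?_ fun m hm => ?_
    · rw [nonempty_Ico]; omega
    · rw [mem_Ico] at hm
      exact hcon m hm.1 hm.2
  have h2 : ∑ m ∈ Ico m0 (m0 + W), ((quad B m).card : ℝ) ≤
      N3 (refl q B) (refl q B) (refl q B) (3 * q + 1 - m0) * (W / p + 2 * δ) := by
    refine le_trans ?_ (window_le (refl q B) (refl q B) (refl q B) B p δ hp0 q hE (3 * q + 1 - m0) W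
      (by omega))
    exact_mod_cast quad_sum_le B q m0 W hB hm2
  rw [sum_const, Nat.card_Ico, nsmul_eq_mul, show m0 + W - m0 = W by omega] at h1
  have hδ : 0 ≤ δ := (abs_nonneg _).trans (hE 0 (Nat.zero_le _))
  have h3 : N3 (refl q B) (refl q B) (refl q B) (3 * q + 1 - m0) * (W / p + 2 * δ) ≤
      K * (W / p + 2 * δ) := mul_le_mul_of_nonneg_right hK (by positivity)
  have h4 : (W : ℝ) * (K * (1 / p + 2 * δ / W)) = K * (W / p + 2 * δ) := by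
    field_simp
  linarith

theorem aux_T3 (p x T : ℝ) (hp0 : 0 < p) (hT0 : 0 ≤ T) (hT : T ≤ x * p ^ 2) (hT2 : T ≤ p ^ 2)
    (hp1 : 1 ≤ p) :
    T * (T + 1) * (2 * T + 1) / (12 * p ^ 3) ≤ x ^ 3 * p ^ 3 / 6 + p / 3 := by
  rw [div_le_iff₀ (by positivity)]
  have f1 : T ^ 3 ≤ (x * p ^ 2) ^ 3 := by gcongr
  have f2 : T ^ 2 ≤ (p ^ 2) ^ 2 := by gcongr
  have f3 : T * (T + 1) * (2 * T + 1) = 2 * T ^ 3 + 3 * T ^ 2 + T := by ring
  have f4 : (x ^ 3 * p ^ 3 / 6 + p / 3) * (12 * p ^ 3) = 2 * (x * p ^ 2) ^ 3 + 4 * p ^ 4 := by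
    ring
  have f5 : p ^ 2 ≤ p ^ 4 := pow_le_pow_right₀ hp1 (by norm_num)
  have f6 : (p ^ 2) ^ 2 = p ^ 4 := by ring
  rw [f3, f4]
  linarith

theorem aux_M (ε p M T : ℝ) (hε0 : 0 < ε) (hε1 : ε ≤ 1) (hp0 : 0 < p) (hT2 : T ≤ p ^ 2)
    (hM : M = (2 * ε + ε ^ 2) * p ^ 2 + 1 / 2) :
    M * (T / p + ε * p) ≤ 6 * ε * p ^ 3 + p := by
  have hM0 : 0 ≤ M := by rw [hM]; positivity
  have f6 : T / p + ε * p ≤ (1 + ε) * p := by
    have : T / p ≤ p := by rw [div_le_iff₀ hp0]; linarith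
    linarith
  calc M * (T / p + ε * p) ≤ M * ((1 + ε) * p) := by gcongr
    _ = ((2 * ε + ε ^ 2) * (1 + ε)) * p ^ 3 + (1 + ε) / 2 * p := by rw [hM]; ring
    _ ≤ 6 * ε * p ^ 3 + p := by
      have e1 : ε ^ 2 ≤ ε := by
        have := mul_le_mul_of_nonneg_left hε1 hε0.le
        linarith
      have e2 : ε ^ 3 ≤ ε := by
        have := mul_le_mul_of_nonneg_left e1 hε0.le
        linarith
      have f7 : (2 * ε + ε ^ 2) * (1 + ε) ≤ 6 * ε := by linarith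
      have f8 : (1 + ε) / 2 * p ≤ p := by
        have := mul_le_mul_of_nonneg_right hε1 hp0.le
        linarith
      have f9 : ((2 * ε + ε ^ 2) * (1 + ε)) * p ^ 3 ≤ 6 * ε * p ^ 3 := by gcongr
      linarith

theorem key (x c : ℝ) (hx : 1 / 2 < x) (hx1 : x < 1) (hc : c < 2 - x ^ 3 / 6 - (1 - x) ^ 2) :
    ∃ p0 : ℕ, ∀ p ≥ p0, p.Prime → ∃ A : Finset ℕ, A ⊆ Icc 1 (4 * (p - 1) ^ 2) ∧
      A.card ≤ 2 * (p - 1) ∧
      c * (p : ℝ) ^ 2 ≤ (((A + A).filter (fun s => s ≤ 4 * (p - 1) ^ 2)).card : ℝ) := by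
  -- choose the window parameter
  obtain ⟨δ, hδ0, hδx, hδ1, hδF⟩ : ∃ δ : ℝ, 0 < δ ∧ 3 * δ < 2 * x - 1 ∧ δ < 1 ∧
      c < 2 - (x ^ 3 / 6 + 8 * δ ^ 2) * (1 + 2 * δ) - (2 - 2 * x + 3 * δ) ^ 2 / 4 -
        (3 / 2) * δ ^ 2 - δ := by
    have e1 : ∀ᶠ δ : ℝ in 𝓝[>] 0, 3 * δ < 2 * x - 1 := by
      have : Tendsto (fun δ : ℝ => 3 * δ) (𝓝[>] 0) (𝓝 (3 * 0)) :=
        (Continuous.tendsto (by fun_prop) _).mono_left nhdsWithin_le_nhds
      exact this.eventually (gt_mem_nhds (by linarith))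
    have e2 : ∀ᶠ δ : ℝ in 𝓝[>] 0, δ < 1 := by
      have : Tendsto (fun δ : ℝ => δ) (𝓝[>] 0) (𝓝 0) := nhdsWithin_le_nhds
      exact this.eventually (gt_mem_nhds (by linarith))
    have e3 : ∀ᶠ δ : ℝ in 𝓝[>] 0, c < 2 - (x ^ 3 / 6 + 8 * δ ^ 2) * (1 + 2 * δ) -
        (2 - 2 * x + 3 * δ) ^ 2 / 4 - (3 / 2) * δ ^ 2 - δ := by
      have : Tendsto (fun δ : ℝ => 2 - (x ^ 3 / 6 + 8 * δ ^ 2) * (1 + 2 * δ) -
          (2 - 2 * x + 3 * δ) ^ 2 / 4 - (3 / 2) * δ ^ 2 - δ) (𝓝[>] 0)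
          (𝓝 (2 - (x ^ 3 / 6 + 8 * (0:ℝ) ^ 2) * (1 + 2 * 0) -
          (2 - 2 * x + 3 * 0) ^ 2 / 4 - (3 / 2) * (0:ℝ) ^ 2 - 0)) :=
        (Continuous.tendsto (by fun_prop) _).mono_left nhdsWithin_le_nhds
      refine this.eventually (lt_mem_nhds ?_)
      nlinarith
    have e4 : ∀ᶠ δ : ℝ in 𝓝[>] 0, 0 < δ := eventually_mem_nhdsWithin
    obtain ⟨δ, h1, h2, h3, h4⟩ := (e1.and (e2.and (e3.and e4))).exists
    exact ⟨δ, h4, h1, h2, h3⟩
  set ε : ℝ := δ ^ 2 with hε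
  have hε0 : 0 < ε := by positivity
  have hε1 : ε ≤ 1 := by rw [hε]; nlinarith
  obtain ⟨p1, hp1⟩ := equi ε hε0
  obtain ⟨p2, hp2⟩ := exists_nat_ge (20 / δ ^ 2 + 20 / (x - δ) + 20 / (2 * x - 1 - 3 * δ) +
    20 / (1 - x) + 20)
  refine ⟨max p1 p2, fun p hp hprime => ?_⟩
  have hpR : (p2 : ℝ) ≤ p := by exact_mod_cast (le_max_right _ _).trans hp
  have hxδ : 0 < x - δ := by linarith
  have hx2 : 0 < 2 * x - 1 - 3 * δ := by linarith
  have hx3 : 0 < 1 - x := by linarith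
  have q1 : 0 < 20 / δ ^ 2 := by positivity
  have q2 : 0 < 20 / (x - δ) := by positivity
  have q3 : 0 < 20 / (2 * x - 1 - 3 * δ) := by positivity
  have q4 : 0 < 20 / (1 - x) := by positivity
  have r1 : 20 ≤ δ ^ 2 * p := by
    have : 20 / δ ^ 2 ≤ p := by linarith
    rw [div_le_iff₀ (by positivity)] at this; linarith
  have r2 : 20 ≤ (x - δ) * p := by
    have : 20 / (x - δ) ≤ p := by linarith
    rw [div_le_iff₀ (by positivity)] at this; linarith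
  have r3 : 20 ≤ (2 * x - 1 - 3 * δ) * p := by
    have : 20 / (2 * x - 1 - 3 * δ) ≤ p := by linarith
    rw [div_le_iff₀ (by positivity)] at this; linarith
  have r4 : 20 ≤ (1 - x) * p := by
    have : 20 / (1 - x) ≤ p := by linarith
    rw [div_le_iff₀ (by positivity)] at this; linarith
  have r5 : (20 : ℝ) ≤ p := by linarith
  have hp0 : (0 : ℝ) < p := by linarith
  have hpp2 : ∀ a : ℝ, 20 ≤ a * p → 20 * (p : ℝ) ≤ a * p ^ 2 := fun a ha => by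
    have := mul_le_mul_of_nonneg_right ha hp0.le
    linarith
  have r6 : 20 ≤ δ * p := by
    have h1 : δ ^ 2 ≤ δ := by
      have := mul_le_mul_of_nonneg_left hδ1.le hδ0.le
      linarith
    have := mul_le_mul_of_nonneg_right h1 hp0.le
    linarith
  have k1 := hpp2 _ r1
  have k2 := hpp2 _ r2
  have k3 := hpp2 _ r3
  have k4 := hpp2 _ r4
  have k5 := hpp2 1 (by linarith)
  have k6 := hpp2 _ r6
  have hpn : 20 ≤ p := by exact_mod_cast r5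
  obtain ⟨B, hS, hcard, hBq⟩ := exists_ruzsa p hprime
  set q := p * (p - 1) with hq
  have hqR : (q : ℝ) = p ^ 2 - p := by
    rw [hq]; push_cast [Nat.cast_sub (show 1 ≤ p by omega)]; ring
  have hE : ∀ y ≤ q, |(cnt B y : ℝ) - y / p| ≤ ε * p :=
    hp1 p ((le_max_left _ _).trans hp) B hS hcard (fun b hb => (hBq b hb).2)
  have hCE : ∀ y ≤ q, (cnt (refl q B) y : ℝ) ≤ y / p + ε * p := fun y hy =>
    cnt_refl_le B p (by omega) (ε * p) hcard hBq hE y hy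
  have hBE : ∀ y ≤ q, (cnt B y : ℝ) ≤ y / p + ε * p := fun y hy => by
    have := (abs_le.mp (hE y hy)).2
    linarith
  -- parameters
  set m0 : ℕ := ⌊(3 - x) * (p : ℝ) ^ 2⌋₊ with hm0
  set W : ℕ := ⌊δ * (p : ℝ) ^ 2⌋₊ + 1 with hW
  set n : ℕ := 4 * (p - 1) ^ 2 with hn
  have hnR : (n : ℝ) = 4 * (p - 1) ^ 2 := by
    rw [hn]; push_cast [Nat.cast_sub (show 1 ≤ p by omega)]; ring
  have hm0l : (m0 : ℝ) ≤ (3 - x) * p ^ 2 := Nat.floor_le (mul_nonneg (by linarith) (sq_nonneg _))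
  have hm0u : (3 - x) * (p : ℝ) ^ 2 < m0 + 1 := Nat.lt_floor_add_one _
  have hWl : (W : ℝ) ≤ δ * p ^ 2 + 1 := by
    have := Nat.floor_le (show 0 ≤ δ * (p : ℝ) ^ 2 by positivity)
    rw [hW]; push_cast; linarith
  have hWu : δ * (p : ℝ) ^ 2 ≤ W := by
    have := Nat.lt_floor_add_one (δ * (p : ℝ) ^ 2)
    rw [hW]; push_cast; linarith
  have hW0 : 0 < W := Nat.succ_pos _
  have hW0R : (0 : ℝ) < W := by exact_mod_cast hW0
  have g1 : 2 * q + 1 ≤ m0 := by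
    have : (2 * q + 1 : ℝ) ≤ m0 := by rw [hqR]; linarith
    exact_mod_cast this
  have g2 : m0 ≤ 3 * q := by
    have : (m0 : ℝ) ≤ 3 * q := by rw [hqR]; linarith
    exact_mod_cast this
  have hT : ((3 * q + 1 - m0 : ℕ) : ℝ) ≤ x * p ^ 2 := by
    rw [Nat.cast_sub (by omega)]
    push_cast
    rw [hqR]; linarith
  have hTq : 3 * q + 1 - m0 ≤ q := by omega
  -- N2 bound
  set M : ℝ := (2 * ε + ε ^ 2) * p ^ 2 + 1 / 2 with hM
  have hqp : (q : ℝ) ≤ p ^ 2 := by rw [hqR]; linarith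
  have hN2 : ∀ C : Finset ℕ, (∀ y ≤ q, (cnt C y : ℝ) ≤ y / p + ε * p) → ∀ y ≤ q,
      (N2 C C y : ℝ) ≤ y ^ 2 / (2 * p ^ 2) + M := by
    intro C hC y hy
    have h := N2_le C C p (ε * p) hp0 (by positivity) q hC hC y hy
    have hyp : (y : ℝ) ≤ p ^ 2 := by
      have : (y : ℝ) ≤ q := by exact_mod_cast hy
      linarith
    have e1 : (y : ℝ) * (y + 1) / (2 * p ^ 2) ≤ y ^ 2 / (2 * p ^ 2) + 1 / 2 := by
      have : (y : ℝ) * (y + 1) / (2 * p ^ 2) = y ^ 2 / (2 * p ^ 2) + y / (2 * p ^ 2) := by ring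
      rw [this]
      have : (y : ℝ) / (2 * p ^ 2) ≤ 1 / 2 := by
        rw [div_le_iff₀ (by positivity)]; linarith
      linarith
    have e2 : 2 * (ε * p) * (y / p) ≤ 2 * ε * p ^ 2 := by
      have : 2 * (ε * p) * ((y : ℝ) / p) = 2 * ε * y := by field_simp
      rw [this]
      have := mul_le_mul_of_nonneg_left hyp (show (0 : ℝ) ≤ 2 * ε by positivity)
      linarith
    have e3 : (ε * p) ^ 2 = ε ^ 2 * p ^ 2 := by ring
    rw [hM]
    linarith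
  have hM0 : 0 ≤ M := by positivity
  have hN3 : (N3 (refl q B) (refl q B) (refl q B) (3 * q + 1 - m0) : ℝ) ≤
      p ^ 3 * (x ^ 3 / 6 + 8 * ε) := by
    set T := 3 * q + 1 - m0 with hTdef
    have h := N3_le (refl q B) (refl q B) (refl q B) p (ε * p) M hp0 (by positivity) hM0 q hCE
      (hN2 _ hCE) T hTq
    have hT0 : (0 : ℝ) ≤ T := Nat.cast_nonneg _
    have hxp : x * (p : ℝ) ^ 2 ≤ p ^ 2 := by linarith
    have hT2 : (T : ℝ) ≤ p ^ 2 := hT.trans hxp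
    have e1 := aux_T3 p x T hp0 hT0 hT hT2 (by linarith)
    have e2 : ε * p * ((T : ℝ) ^ 2 / (2 * p ^ 2)) ≤ ε * p ^ 3 / 2 := by
      have f2 : (T : ℝ) ^ 2 ≤ (p ^ 2) ^ 2 := by gcongr
      have f5 : (T : ℝ) ^ 2 / (2 * p ^ 2) ≤ p ^ 2 / 2 := by
        rw [div_le_iff₀ (by positivity)]; linarith
      calc ε * p * ((T : ℝ) ^ 2 / (2 * p ^ 2)) ≤ ε * p * (p ^ 2 / 2) := by gcongr
        _ = _ := by ring
    have e3 := aux_M ε p M T hε0 hε1 hp0 hT2 hM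
    have e4 : (20 : ℝ) * p ≤ ε * p ^ 3 := by
      have h1 := mul_le_mul_of_nonneg_right k1 hp0.le
      have h2 := mul_le_mul_of_nonneg_right r5 (sq_nonneg (p : ℝ))
      have h3 : ε * (p : ℝ) ^ 3 = δ ^ 2 * p ^ 2 * p := by rw [hε]; ring
      rw [h3]
      linarith
    have e5 : 0 ≤ ε * (p : ℝ) ^ 3 := by positivity
    linarith
  obtain ⟨m, hmm, hmW, hquad⟩ := exists_centre B p q m0 W (ε * p) _ (by omega) hq hcard hBq hE g1 g2
    hW0 hN3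
  have hmR : (m0 : ℝ) ≤ m := by exact_mod_cast hmm
  have hmR2 : (m : ℝ) ≤ m0 + W := by exact_mod_cast hmW.le
  have g3 : m + q ≤ n := by
    have : (m : ℝ) + q ≤ n := by
      rw [hqR, hnR]; linarith
    exact_mod_cast this
  have g4 : n ≤ 2 * m := by
    have : (n : ℝ) ≤ 2 * m := by
      rw [hnR]; linarith
    exact_mod_cast this
  have hub := union_bound B q m n hS hBq (by omega) g3 g4
  set A := B ∪ B.image (fun b => m - b) with hA
  refine ⟨A, ?_, ?_, ?_⟩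
  · intro a ha
    rw [hA, mem_union, mem_image] at ha
    rw [mem_Icc]
    rcases ha with h | ⟨b, hb, rfl⟩
    · have := hBq a h; omega
    · have := hBq b hb; omega
  · refine (card_union_le _ _).trans ?_
    have := card_image_le (s := B) (f := fun b => m - b)
    omega
  · -- final computation
    have hy : ((2 * m - n : ℕ) : ℝ) ≤ (2 - 2 * x + 3 * δ) * p ^ 2 := by
      rw [Nat.cast_sub g4]; push_cast; rw [hnR]; linarith
    have hyq : 2 * m - n ≤ q := by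
      have : ((2 * m - n : ℕ) : ℝ) ≤ q := by
        refine hy.trans ?_
        rw [hqR]; linarith
      exact_mod_cast this
    have hN := hN2 B hBE (2 * m - n) hyq
    have hN' : (N2 B B (2 * m - n) : ℝ) ≤ (2 - 2 * x + 3 * δ) ^ 2 / 2 * p ^ 2 + M := by
      refine hN.trans ?_
      have f0 : (0 : ℝ) ≤ ((2 * m - n : ℕ) : ℝ) := Nat.cast_nonneg _
      have f1 : (((2 * m - n : ℕ) : ℝ)) ^ 2 ≤ ((2 - 2 * x + 3 * δ) * p ^ 2) ^ 2 := by gcongr
      have f2 : (((2 * m - n : ℕ) : ℝ)) ^ 2 / (2 * p ^ 2) ≤ (2 - 2 * x + 3 * δ) ^ 2 / 2 * p ^ 2 := by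
        rw [div_le_iff₀ (by positivity)]
        calc _ ≤ ((2 - 2 * x + 3 * δ) * (p : ℝ) ^ 2) ^ 2 := f1
          _ = _ := by ring
      linarith
    have hQ : ((quad B m).card : ℝ) ≤ p ^ 2 * ((x ^ 3 / 6 + 8 * ε) * (1 + 2 * δ)) := by
      refine hquad.trans ?_
      have f1 : 2 * (ε * p) / W ≤ 2 * δ / p := by
        rw [div_le_div_iff₀ hW0R hp0]
        have : 2 * (ε * p) * p = 2 * δ * (δ * p ^ 2) := by rw [hε]; ring
        rw [this]
        gcongr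
      calc _ ≤ (p : ℝ) ^ 3 * (x ^ 3 / 6 + 8 * ε) * (1 / p + 2 * δ / p) := by
            have : 0 < x := by linarith
            gcongr
        _ = _ := by field_simp
    have hcR : (B.card : ℝ) = p - 1 := by
      rw [hcard]; push_cast [Nat.cast_sub (show 1 ≤ p by omega)]; ring
    have hub' : 4 * (((p : ℝ) - 1) * (p - 1) - (p - 1)) ≤
        2 * (((A + A).filter (fun s => s ≤ n)).card : ℝ) + 2 * (quad B m).card +
          N2 B B (2 * m - n) := by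
      have h1 : B.card ≤ B.card * B.card := Nat.le_mul_self _
      have h2 : ((4 * (B.card * B.card - B.card) : ℕ) : ℝ) =
          4 * (((p : ℝ) - 1) * (p - 1) - (p - 1)) := by
        push_cast [Nat.cast_sub h1]; rw [hcR]
      rw [← h2]; exact_mod_cast hub
    have hfin : 2 * c * (p : ℝ) ^ 2 ≤ 2 * (2 - (x ^ 3 / 6 + 8 * δ ^ 2) * (1 + 2 * δ) -
        (2 - 2 * x + 3 * δ) ^ 2 / 4 - (3 / 2) * δ ^ 2 - δ) * p ^ 2 := by
      have h1 : 0 ≤ (p : ℝ) ^ 2 := by positivity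
      have h2 := mul_le_mul_of_nonneg_right hδF.le h1
      linarith
    have hMle : M ≤ 3 * δ ^ 2 * p ^ 2 + 1 := by
      rw [hM]
      have : ε ^ 2 ≤ ε := by
        have := mul_le_mul_of_nonneg_left hε1 hε0.le
        linarith
      have h5 : (2 * ε + ε ^ 2) * (p : ℝ) ^ 2 ≤ 3 * ε * p ^ 2 := by gcongr; linarith
      linarith
    have hcl : 2 * (2 - (x ^ 3 / 6 + 8 * δ ^ 2) * (1 + 2 * δ) -
        (2 - 2 * x + 3 * δ) ^ 2 / 4 - (3 / 2) * δ ^ 2 - δ) * (p : ℝ) ^ 2 =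
        4 * p ^ 2 - 2 * (p ^ 2 * ((x ^ 3 / 6 + 8 * ε) * (1 + 2 * δ))) -
        (2 - 2 * x + 3 * δ) ^ 2 / 2 * p ^ 2 - 3 * δ ^ 2 * p ^ 2 - 2 * (δ * p ^ 2) := by
      rw [hε]; ring
    rw [hcl] at hfin
    have hexp : 4 * (((p : ℝ) - 1) * (p - 1) - (p - 1)) = 4 * p ^ 2 - 12 * p + 8 := by ring
    rw [hexp] at hub'
    linarith

end Pool.Agent.Work.MP_d0c231_co
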