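import Mathlib
import Pool.Agent.Work.MP_54969a_nt.PNT

/-!
Primes in short intervals `((1 - η) y, y]` for all large `y`.
-/

open MeasureTheory Filter Topology Complex
open scoped Real

namespace Pool.Agent.Work.MP_d0c231_co

open Pool.Agent.Work.MP_54969a_nt

/-- the von Mangoldt function, complex valued -/
noncomputable def La (n : ℕ) : ℂ := ((ArithmeticFunction.vonMangoldt n : ℝ) : ℂ)

theorem sum_La (n : ℕ) : ∑ k ∈ Finset.Icc 1 n, La k = ((Chebyshev.psi n : ℝ) : ℂ) := by
  unfold La Chebyshev.psi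
  rw [Nat.floor_natCast]
  push_cast
  rfl

theorem sum_norm_La_le (n : ℕ) : ∑ k ∈ Finset.Icc 1 n, ‖La k‖ ≤ (Real.log 4 + 4) * n := by
  have h := Chebyshev.psi_le_const_mul_self (x := n) (Nat.cast_nonneg n)
  unfold Chebyshev.psi at h
  rw [Nat.floor_natCast] at h
  refine le_trans (le_of_eq ?_) h
  refine Finset.sum_congr rfl fun k _ => ?_
  unfold La
  rw [norm_real, Real.norm_eq_abs, abs_of_nonneg ArithmeticFunction.vonMangoldt_nonneg]

/-- normalised Chebyshev function -/
noncomputable def F (v : ℝ) : ℝ := Chebyshev.psi (Real.exp v) * Real.exp (-v) - 1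

/-- a bound for `F` -/
noncomputable def Bd : ℝ := Real.log 4 + 5

theorem Bd_pos : 0 < Bd := by
  have : 0 < Real.log 4 := Real.log_pos (by norm_num)
  unfold Bd; linarith

theorem F_abs_le (v : ℝ) : |F v| ≤ Bd := by
  unfold F Bd
  have h1 := Chebyshev.psi_nonneg (Real.exp v)
  have h2 := Chebyshev.psi_le_const_mul_self (Real.exp_pos v).le
  have h3 := Real.exp_pos (-v)
  have h4 : Chebyshev.psi (Real.exp v) * Real.exp (-v) ≤ Real.log 4 + 4 := by
    calc _ ≤ (Real.log 4 + 4) * Real.exp v * Real.exp (-v) := by gcongr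
      _ = Real.log 4 + 4 := by rw [mul_assoc, ← Real.exp_add]; simp
  have h5 : 0 ≤ Chebyshev.psi (Real.exp v) * Real.exp (-v) := by positivity
  have h6 : 0 < Real.log 4 := Real.log_pos (by norm_num)
  rw [abs_le]; constructor <;> linarith

theorem F_measurable : Measurable F := by
  unfold F
  exact ((Chebyshev.psi_mono.measurable.comp Real.measurable_exp).mul (by fun_prop)).sub_const _

theorem laplace_psi (s : ℂ) (hs : 0 < s.re) :
    LSeries La (s + 1) / (s + 1) =
      ∫ u in Set.Ioi (0 : ℝ), ((Chebyshev.psi (Real.exp u) * Real.exp (-u) : ℝ) : ℂ) * cexp (-s * u) := by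
  have hs1 : s + 1 ≠ 0 := by
    intro h
    have := congrArg Complex.re h
    simp at this
    linarith
  have hO : (fun n : ℕ => ∑ k ∈ Finset.Icc 1 n, ‖La k‖) =O[atTop] fun n : ℕ => (n : ℝ) ^ (1 : ℝ) := by
    refine Asymptotics.IsBigO.of_bound (Real.log 4 + 4) (Eventually.of_forall fun n => ?_)
    rw [Real.norm_of_nonneg (Finset.sum_nonneg fun _ _ => norm_nonneg _), Real.rpow_one,
      Real.norm_of_nonneg (Nat.cast_nonneg n)]
    exact sum_norm_La_le n
  have h1 := LSeries_eq_mul_integral' La (r := 1) zero_le_one (s := s + 1) (by simp [hs]) hO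
  rw [h1, mul_div_cancel_left₀ _ hs1]
  have himg : Real.exp '' Set.Ioi 0 = Set.Ioi 1 := by
    ext y
    constructor
    · rintro ⟨u, hu, rfl⟩
      exact Real.one_lt_exp_iff.mpr hu
    · intro hy
      have hy1 : (1 : ℝ) < y := hy
      exact ⟨Real.log y, Real.log_pos hy1, Real.exp_log (by linarith)⟩
  rw [← himg, integral_image_eq_integral_abs_deriv_smul measurableSet_Ioi
    (fun x _ => (Real.hasDerivAt_exp x).hasDerivWithinAt) Real.exp_injective.injOn]
  refine integral_congr_ae (Eventually.of_forall fun u => ?_)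
  simp only
  rw [abs_of_pos (Real.exp_pos u), sum_La, ← Chebyshev.psi_eq_psi_coe_floor]
  rw [Complex.real_smul]
  have h2 : ((Real.exp u : ℝ) : ℂ) ^ (-(s + 1 + 1)) = cexp (-(s + 1 + 1) * u) := by
    rw [Complex.cpow_def_of_ne_zero (by exact_mod_cast (Real.exp_pos u).ne'),
      ← Complex.ofReal_log (Real.exp_pos u).le, Real.log_exp, mul_comm]
  rw [h2]
  have h3 : cexp (-(s + 1 + 1) * u) = cexp (-s * u) * cexp (-u) * cexp (-u) := by
    rw [← Complex.exp_add, ← Complex.exp_add]; congr 1; ring
  rw [h3]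
  push_cast
  have h4 : cexp u * cexp (-u) = 1 := by rw [← Complex.exp_add]; simp
  linear_combination ((Chebyshev.psi (Real.exp u) : ℂ) * cexp (-s * u) * cexp (-u)) * h4

/-- The boundary function. -/
noncomputable def HH (s : ℂ) : ℂ :=
  (ArithmeticFunction.vonMangoldt.LFunctionResidueClassAux (q := 1) 1 (s + 1) - 1) / (s + 1)

theorem HH_continuousOn : ContinuousOn HH {s : ℂ | 0 ≤ s.re} := by
  unfold HH
  refine ContinuousOn.div ?_ (by fun_prop) ?_
  · refine ContinuousOn.sub ?_ continuousOn_const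
    refine (ArithmeticFunction.vonMangoldt.continuousOn_LFunctionResidueClassAux
      (q := 1) 1).comp (by fun_prop) ?_
    intro s hs
    have : 0 ≤ s.re := hs
    simp only [Set.mem_ofPred_eq, add_re, one_re]
    linarith
  · intro s hs h
    have h1 : 0 ≤ s.re := hs
    have := congrArg Complex.re h
    simp at this
    linarith

theorem integrable_exp_neg {s : ℂ} (hs : 0 < s.re) :
    IntegrableOn (fun u : ℝ => cexp (-s * u)) (Set.Ioi 0) :=
  integrableOn_exp_mul_complex_Ioi (by simpa using hs) 0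

theorem integral_exp_neg' {s : ℂ} (hs : 0 < s.re) :
    ∫ u in Set.Ioi (0 : ℝ), cexp (-s * u) = 1 / s := by
  rw [integral_exp_mul_complex_Ioi (by simpa using hs) 0]
  simp

theorem F_integrable {s : ℂ} (hs : 0 < s.re) :
    IntegrableOn (fun u : ℝ => (F u : ℂ) * cexp (-s * u)) (Set.Ioi 0) := by
  refine (integrable_exp_neg hs).bdd_mul (c := Bd) ?_ ?_
  · exact (Complex.measurable_ofReal.comp F_measurable).aestronglyMeasurable
  · refine Eventually.of_forall fun u => ?_
    rw [norm_real]; exact F_abs_le u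

theorem laplace_F (s : ℂ) (hs : 0 < s.re) :
    HH s = ∫ u in Set.Ioi (0 : ℝ), (F u : ℂ) * cexp (-s * u) := by
  have hs0 : s ≠ 0 := by rintro rfl; simp at hs
  have hs1 : s + 1 ≠ 0 := by
    intro h
    have := congrArg Complex.re h
    simp at this
    linarith
  have h1 : ∫ u in Set.Ioi (0 : ℝ), (F u : ℂ) * cexp (-s * u) =
      (∫ u in Set.Ioi (0 : ℝ), ((Chebyshev.psi (Real.exp u) * Real.exp (-u) : ℝ) : ℂ) *
        cexp (-s * u)) - ∫ u in Set.Ioi (0 : ℝ), cexp (-s * u) := by
    rw [← integral_sub ?_ (integrable_exp_neg hs)]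
    · refine integral_congr_ae (Eventually.of_forall fun u => ?_)
      unfold F; push_cast; ring
    · have := (F_integrable hs).add (integrable_exp_neg hs)
      refine this.congr (Eventually.of_forall fun u => ?_)
      simp only [Pi.add_apply]
      unfold F; push_cast; ring
  rw [h1, ← laplace_psi s hs, integral_exp_neg' hs]
  unfold HH
  have h2 := ArithmeticFunction.vonMangoldt.eqOn_LFunctionResidueClassAux (q := 1) (a := 1)
    isUnit_one (x := s + 1) (by simp only [Set.mem_ofPred_eq, add_re, one_re]; linarith)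
  rw [h2]
  have h3 : LSeries (fun n : ℕ => ((ArithmeticFunction.vonMangoldt.residueClass (1 : ZMod 1) n : ℝ) : ℂ))
      (s + 1) = LSeries La (s + 1) := by
    refine LSeries_congr (fun {n} _ => ?_) _
    unfold La ArithmeticFunction.vonMangoldt.residueClass
    rw [Set.indicator_of_mem]
    exact Subsingleton.elim _ _
  simp only
  rw [h3]
  simp
  field_simp
  ring

/-- the exponentially smoothed function -/
noncomputable def Φ (u : ℝ) : ℝ := ∫ v in (0 : ℝ)..u, F v * Real.exp v

theorem F_exp (v : ℝ) : F v * Real.exp v = Chebyshev.psi (Real.exp v) - Real.exp v := by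
  unfold F
  rw [sub_mul, mul_assoc, ← Real.exp_add]; simp

theorem psi_exp_mono : Monotone (fun v : ℝ => Chebyshev.psi (Real.exp v)) :=
  Chebyshev.psi_mono.comp Real.exp_monotone

theorem F_exp_ii (a b : ℝ) : IntervalIntegrable (fun v => F v * Real.exp v) volume a b := by
  simp_rw [F_exp]
  exact psi_exp_mono.intervalIntegrable.sub (Real.continuous_exp.intervalIntegrable _ _)

theorem int_F_exp_le {a b : ℝ} (hab : a ≤ b) :
    |∫ v in a..b, F v * Real.exp v| ≤ Bd * (Real.exp b - Real.exp a) := by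
  have h1 : ‖∫ v in a..b, F v * Real.exp v‖ ≤ ∫ v in a..b, Bd * Real.exp v := by
    refine intervalIntegral.norm_integral_le_of_norm_le hab
      (Eventually.of_forall fun v _ => ?_) ?_
    · rw [norm_mul, Real.norm_eq_abs, Real.norm_eq_abs, abs_of_pos (Real.exp_pos v)]
      exact mul_le_mul_of_nonneg_right (F_abs_le v) (Real.exp_pos v).le
    · exact (by fun_prop : Continuous fun v : ℝ => Bd * Real.exp v).intervalIntegrable _ _
  rw [intervalIntegral.integral_const_mul, integral_exp] at h1
  exact h1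

/-- smoothed and damped -/
noncomputable def G (u : ℝ) : ℝ := Real.exp (-(max u 0)) * Φ (max u 0)

theorem G_abs_le (u : ℝ) : |G u| ≤ Bd := by
  unfold G Φ
  have h := int_F_exp_le (a := 0) (b := max u 0) (le_max_right _ _)
  rw [abs_mul, abs_of_pos (Real.exp_pos _)]
  have h1 : Real.exp (-(max u 0)) * (Bd * (Real.exp (max u 0) - Real.exp 0)) ≤ Bd := by
    have : Real.exp (-(max u 0)) * Real.exp (max u 0) = 1 := by rw [← Real.exp_add]; simp
    have h2 : 0 ≤ Bd * Real.exp (-(max u 0)) := mul_nonneg Bd_pos.le (Real.exp_pos _).le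
    have h3 : Real.exp (-(max u 0)) * (Bd * (Real.exp (max u 0) - Real.exp 0)) =
        Bd * (Real.exp (-(max u 0)) * Real.exp (max u 0)) - Bd * Real.exp (-(max u 0)) := by
      rw [Real.exp_zero]; ring
    rw [h3, this]; linarith
  exact (mul_le_mul_of_nonneg_left h (Real.exp_pos _).le).trans h1

theorem G_lip {u x : ℝ} (hu : 0 ≤ u) (hux : u ≤ x) : |G x - G u| ≤ 2 * Bd * (x - u) := by
  have hx : 0 ≤ x := hu.trans hux
  unfold G
  rw [max_eq_left hu, max_eq_left hx]
  have h1 : Φ x = Φ u + ∫ v in u..x, F v * Real.exp v := by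
    unfold Φ
    rw [intervalIntegral.integral_add_adjacent_intervals (F_exp_ii _ _) (F_exp_ii _ _)]
  have h2 : Real.exp (-x) * Φ x - Real.exp (-u) * Φ u = (Real.exp (-x) - Real.exp (-u)) * Φ u +
      Real.exp (-x) * ∫ v in u..x, F v * Real.exp v := by rw [h1]; ring
  rw [h2]
  have h3 : |Φ u| ≤ Bd * Real.exp u := by
    have := int_F_exp_le (a := 0) (b := u) hu
    have h4 : 0 ≤ Bd * Real.exp 0 := mul_nonneg Bd_pos.le (Real.exp_pos _).le
    unfold Φ; nlinarith
  have h4 := int_F_exp_le hux
  have h5 : 1 - (x - u) ≤ Real.exp (-(x - u)) := by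
    have := Real.add_one_le_exp (-(x - u)); linarith
  have e1 : Real.exp (-x) * Real.exp u = Real.exp (-(x - u)) := by
    rw [← Real.exp_add]; congr 1; ring
  have e2 : Real.exp (-x) * Real.exp x = 1 := by rw [← Real.exp_add]; simp
  have e3 : Real.exp (-u) * Real.exp u = 1 := by rw [← Real.exp_add]; simp
  have e4 : Real.exp (-x) ≤ Real.exp (-u) := Real.exp_le_exp.mpr (by linarith)
  have a1 : |(Real.exp (-x) - Real.exp (-u)) * Φ u| ≤ Bd * (x - u) := by
    rw [abs_mul, abs_sub_comm, abs_of_nonneg (by linarith)]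
    calc _ ≤ (Real.exp (-u) - Real.exp (-x)) * (Bd * Real.exp u) :=
          mul_le_mul_of_nonneg_left h3 (by linarith)
      _ = Bd * (Real.exp (-u) * Real.exp u - Real.exp (-x) * Real.exp u) := by ring
      _ ≤ Bd * (x - u) := by
          rw [e1, e3]
          exact mul_le_mul_of_nonneg_left (by linarith) Bd_pos.le
  have a2 : |Real.exp (-x) * ∫ v in u..x, F v * Real.exp v| ≤ Bd * (x - u) := by
    rw [abs_mul, abs_of_pos (Real.exp_pos _)]
    calc _ ≤ Real.exp (-x) * (Bd * (Real.exp x - Real.exp u)) :=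
          mul_le_mul_of_nonneg_left h4 (Real.exp_pos _).le
      _ = Bd * (Real.exp (-x) * Real.exp x - Real.exp (-x) * Real.exp u) := by ring
      _ ≤ Bd * (x - u) := by
          rw [e1, e2]
          exact mul_le_mul_of_nonneg_left (by linarith) Bd_pos.le
  calc _ ≤ _ := abs_add_le _ _
    _ ≤ Bd * (x - u) + Bd * (x - u) := add_le_add a1 a2
    _ = _ := by ring

theorem Φ_continuous : Continuous Φ :=
  intervalIntegral.continuous_primitive F_exp_ii 0

theorem G_measurable : Measurable G := by
  unfold G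
  have : Continuous fun u : ℝ => Real.exp (-(max u 0)) * Φ (max u 0) := by
    have := Φ_continuous.comp (continuous_id.max (continuous_const (y := (0 : ℝ))))
    refine Continuous.mul (by fun_prop) this
  exact this.measurable

theorem laplace_G (s : ℂ) (hs : 0 < s.re) :
    HH s / (s + 1) = ∫ u in Set.Ioi (0 : ℝ), (G u : ℂ) * cexp (-s * u) := by
  have hs1 : 0 < (s + 1).re := by simp; linarith
  have h := integral_posConvolution (μ := volume) (ν := volume) (F_integrable hs)
    (integrable_exp_neg hs1) (ContinuousLinearMap.mul ℝ ℂ)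
  rw [← laplace_F s hs, integral_exp_neg' hs1] at h
  have h2 : HH s / (s + 1) = (ContinuousLinearMap.mul ℝ ℂ) (HH s) (1 / (s + 1)) := by
    rw [ContinuousLinearMap.mul_apply']; ring
  rw [h2, ← h]
  refine setIntegral_congr_fun measurableSet_Ioi fun x hx => ?_
  have hx0 : (0 : ℝ) < x := hx
  unfold G Φ
  rw [max_eq_left hx0.le]
  push_cast
  rw [← intervalIntegral.integral_ofReal, ← intervalIntegral.integral_const_mul,
    ← intervalIntegral.integral_mul_const]
  refine intervalIntegral.integral_congr fun t _ => ?_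
  simp only [ContinuousLinearMap.mul_apply']
  push_cast
  have e1 : cexp (-s * t) * cexp (-(s + 1) * (x - t)) = cexp (-x) * cexp t * cexp (-s * x) := by
    rw [← Complex.exp_add, ← Complex.exp_add, ← Complex.exp_add]; congr 1; ring
  linear_combination (F t : ℂ) * e1

theorem G_tendsto : Tendsto G atTop (𝓝 0) := by
  have h := tauber (fun u => (G u : ℂ)) (Complex.measurable_ofReal.comp G_measurable) Bd
    (fun u => by rw [norm_real]; exact G_abs_le u) (fun s => HH s / (s + 1))
    (by
      refine HH_continuousOn.div (by fun_prop) ?_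
      intro s hs h
      have h1 : 0 ≤ s.re := hs
      have := congrArg Complex.re h
      simp at this
      linarith) laplace_G
    (by
      intro η hη
      refine ⟨min 1 (η / (2 * Bd)), lt_min one_pos (div_pos hη (by have := Bd_pos; linarith)), 1,
        fun x hx u hu => ?_⟩
      have hB := Bd_pos
      have h1 : |x - u| < 1 := lt_of_lt_of_le hu (min_le_left _ _)
      have h2 : |x - u| < η / (2 * Bd) := lt_of_lt_of_le hu (min_le_right _ _)
      have h3 : |x - u| * (2 * Bd) < η := by rwa [lt_div_iff₀ (by linarith)] at h2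
      rw [← ofReal_sub, norm_real, Real.norm_eq_abs]
      have hu0 : 0 ≤ u := by
        have := (abs_lt.mp h1).2; linarith
      have hx0 : 0 ≤ x := by linarith
      rcases le_total u x with hux | hux
      · have := G_lip hu0 hux
        rw [abs_of_nonneg (sub_nonneg.mpr hux)] at h3
        linarith
      · have := G_lip hx0 hux
        rw [abs_sub_comm] at this
        rw [abs_sub_comm, abs_of_nonneg (sub_nonneg.mpr hux)] at h3
        linarith)
  have h2 := (Complex.continuous_re.tendsto _).comp h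
  rw [Complex.zero_re] at h2
  exact h2

/-- integral of the Chebyshev function over `[u, u+h]` in logarithmic scale -/
theorem int_psi (u h : ℝ) (hu : 0 ≤ u) (hh : 0 ≤ h) :
    ∫ v in u..(u + h), Chebyshev.psi (Real.exp v) =
      Real.exp (u + h) * G (u + h) - Real.exp u * G u + (Real.exp (u + h) - Real.exp u) := by
  have hG : ∀ x, 0 ≤ x → Real.exp x * G x = Φ x := by
    intro x hx
    unfold G
    rw [max_eq_left hx, ← mul_assoc, ← Real.exp_add]; simp
  rw [hG _ (by linarith), hG _ hu]
  have h1 : Φ (u + h) = Φ u + ∫ v in u..(u + h), F v * Real.exp v := by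
    unfold Φ
    rw [intervalIntegral.integral_add_adjacent_intervals (F_exp_ii _ _) (F_exp_ii _ _)]
  have h2 : ∫ v in u..(u + h), F v * Real.exp v =
      (∫ v in u..(u + h), Chebyshev.psi (Real.exp v)) - (Real.exp (u + h) - Real.exp u) := by
    simp_rw [F_exp]
    rw [intervalIntegral.integral_sub psi_exp_mono.intervalIntegrable
      (Real.continuous_exp.intervalIntegrable _ _), integral_exp]
  rw [h1, h2]; ring

theorem theta_eq_of_no_prime {x y : ℝ} (hxy : x ≤ y)
    (hno : ∀ p : ℕ, p.Prime → x < p → ¬ (p : ℝ) ≤ y) : Chebyshev.theta y = Chebyshev.theta x := by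
  unfold Chebyshev.theta
  congr 1
  ext p
  simp only [Finset.mem_filter, Finset.mem_Ioc]
  constructor
  · rintro ⟨⟨h1, h2⟩, h3⟩
    refine ⟨⟨h1, ?_⟩, h3⟩
    by_contra h4
    push Not at h4
    have h5 : x < p := Nat.lt_of_floor_lt h4
    have h6 : (p : ℝ) ≤ y := by
      rw [← Nat.le_floor_iff']
      · exact h2
      · omega
    exact hno p h3 h5 h6
  · rintro ⟨⟨h1, h2⟩, h3⟩
    exact ⟨⟨h1, h2.trans (Nat.floor_mono hxy)⟩, h3⟩

theorem exists_prime_exp (h : ℝ) (hh : 0 < h) : ∃ U : ℝ, ∀ u ≥ U, ∃ p : ℕ, p.Prime ∧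
    Real.exp u < p ∧ (p : ℝ) ≤ Real.exp (u + 3 * h) := by
  obtain ⟨C, hC⟩ := Chebyshev.psi_sub_theta_le_mul_sqrt
  set a : ℝ := Real.exp h with ha
  have ha1 : 1 < a := Real.one_lt_exp_iff.mpr hh
  set c0 : ℝ := (a ^ 2 - 1) * (a - 1) with hc0
  have hc0p : 0 < c0 := mul_pos (by nlinarith) (by linarith)
  set κ : ℝ := c0 / (16 * a ^ 3) with hκ
  have hκp : 0 < κ := by positivity
  have hG : ∀ᶠ u in atTop, |G u| ≤ κ := by
    have := G_tendsto.abs
    rw [abs_zero] at this
    exact (this.eventually (gt_mem_nhds hκp)).mono fun u hu => hu.le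
  obtain ⟨U1, hU1⟩ := eventually_atTop.mp hG
  have hE : ∀ᶠ u : ℝ in atTop, 4 * h * C * Real.exp (3 * h / 2) / c0 ≤ Real.exp (u / 2) := by
    have : Tendsto (fun u : ℝ => Real.exp (u / 2)) atTop atTop :=
      Real.tendsto_exp_atTop.comp (tendsto_id.atTop_div_const (by norm_num))
    exact this.eventually_ge_atTop _
  obtain ⟨U2, hU2⟩ := eventually_atTop.mp hE
  refine ⟨max (max U1 U2) 0, fun u hu => ?_⟩
  have hu1 : U1 ≤ u := (le_max_left _ _).trans ((le_max_left _ _).trans hu)
  have hu2 : U2 ≤ u := (le_max_right _ _).trans ((le_max_left _ _).trans hu)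
  have hu0 : 0 ≤ u := (le_max_right _ _).trans hu
  by_contra hcon
  push Not at hcon
  set X : ℝ := Real.exp u with hX
  have hXp : 0 < X := Real.exp_pos _
  have eh : ∀ k : ℕ, Real.exp (u + k * h) = X * a ^ k := by
    intro k
    rw [Real.exp_add, ha, ← Real.exp_nat_mul]
  have e1 : Real.exp (u + h) = X * a := by have := eh 1; simpa using this
  have e2 : Real.exp (u + 2 * h) = X * a ^ 2 := by have := eh 2; exact_mod_cast this
  have e3 : Real.exp (u + 3 * h) = X * a ^ 3 := by have := eh 3; exact_mod_cast this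
  have hth : Chebyshev.theta (Real.exp (u + 3 * h)) = Chebyshev.theta X := by
    refine theta_eq_of_no_prime (Real.exp_le_exp.mpr (by linarith)) fun p hp h1 => ?_
    exact not_le.mpr (hcon p hp h1)
  set P := Chebyshev.theta X with hP
  -- first integral
  have i1 := int_psi u h hu0 hh.le
  have i2 := int_psi (u + 2 * h) h (by linarith) hh.le
  rw [show u + 2 * h + h = u + 3 * h by ring] at i2
  have l1 : h * P ≤ ∫ v in u..(u + h), Chebyshev.psi (Real.exp v) := by
    have : ∫ v in u..(u + h), P ≤ ∫ v in u..(u + h), Chebyshev.psi (Real.exp v) := by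
      refine intervalIntegral.integral_mono_on (by linarith) (by simp)
        psi_exp_mono.intervalIntegrable fun v hv => ?_
      have : X ≤ Real.exp v := Real.exp_le_exp.mpr hv.1
      exact (Chebyshev.theta_mono this).trans (Chebyshev.theta_le_psi _)
    rw [intervalIntegral.integral_const, smul_eq_mul] at this
    rwa [show u + h - u = h by ring] at this
  set E := C * Real.sqrt (Real.exp (u + 3 * h)) with hEdef
  have l2 : ∫ v in (u + 2 * h)..(u + 3 * h), Chebyshev.psi (Real.exp v) ≤ h * (P + E) := by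
    have : ∫ v in (u + 2 * h)..(u + 3 * h), Chebyshev.psi (Real.exp v) ≤
        ∫ v in (u + 2 * h)..(u + 3 * h), (P + E) := by
      refine intervalIntegral.integral_mono_on (by linarith)
        psi_exp_mono.intervalIntegrable (by simp) fun v hv => ?_
      have h1 : Chebyshev.psi (Real.exp v) ≤ Chebyshev.psi (Real.exp (u + 3 * h)) :=
        Chebyshev.psi_mono (Real.exp_le_exp.mpr hv.2)
      have h2 := hC (Real.exp (u + 3 * h))
      rw [hth] at h2
      linarith
    rw [intervalIntegral.integral_const, smul_eq_mul] at this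
    rwa [show u + 3 * h - (u + 2 * h) = h by ring] at this
  rw [i1] at l1
  rw [i2] at l2
  rw [e1] at l1
  rw [e2, e3] at l2
  have g0 := abs_le.mp (hU1 u hu1)
  have g1 := abs_le.mp (hU1 (u + h) (by linarith))
  have g2 := abs_le.mp (hU1 (u + 2 * h) (by linarith))
  have g3 := abs_le.mp (hU1 (u + 3 * h) (by linarith))
  have hsq : Real.sqrt (Real.exp (u + 3 * h)) = Real.exp (u / 2) * Real.exp (3 * h / 2) := by
    rw [← Real.exp_add, Real.sqrt_eq_iff_mul_self_eq (Real.exp_pos _).le (Real.exp_pos _).le,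
      ← Real.exp_add]
    congr 1; ring
  have hE1 : h * E ≤ c0 / 4 * X := by
    have h1 := hU2 u hu2
    rw [div_le_iff₀ hc0p] at h1
    have h2 : X = Real.exp (u / 2) * Real.exp (u / 2) := by
      rw [← Real.exp_add, hX]; congr 1; ring
    rw [hEdef, hsq, h2]
    have h3 : 0 < Real.exp (u / 2) := Real.exp_pos _
    nlinarith
  have hk : κ * a ^ 3 = c0 / 16 := by rw [hκ]; field_simp
  have t0 : X * G u ≤ X * κ := mul_le_mul_of_nonneg_left g0.2 hXp.le
  have a3 : 0 < a ^ 3 := by positivity
  have b0 : X * κ ≤ X * (κ * a ^ 3) := by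
    have : 1 ≤ a ^ 3 := one_le_pow₀ ha1.le
    have h5 := mul_le_mul_of_nonneg_left this (mul_pos hXp hκp).le
    linarith
  have b1 : X * κ * a ≤ X * (κ * a ^ 3) := by
    have : a ≤ a ^ 3 := by nlinarith [mul_pos (show 0 < a by linarith) (show 0 < a by linarith)]
    have h5 := mul_le_mul_of_nonneg_left this (mul_pos hXp hκp).le
    linarith
  have b2 : X * κ * a ^ 2 ≤ X * (κ * a ^ 3) := by
    have : a ^ 2 ≤ a ^ 3 := by nlinarith [mul_pos (show 0 < a by linarith) (show 0 < a by linarith)]
    have h5 := mul_le_mul_of_nonneg_left this (mul_pos hXp hκp).le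
    linarith
  have t1 : X * a * -G (u + h) ≤ X * a * κ := mul_le_mul_of_nonneg_left (by linarith) (by positivity)
  have t2 : X * a ^ 2 * G (u + 2 * h) ≤ X * a ^ 2 * κ :=
    mul_le_mul_of_nonneg_left g2.2 (by positivity)
  have t3 : X * a ^ 3 * -G (u + 3 * h) ≤ X * a ^ 3 * κ :=
    mul_le_mul_of_nonneg_left (by linarith) (by positivity)
  have t0' : X * -G u ≤ X * κ := mul_le_mul_of_nonneg_left (by linarith) hXp.le
  have t1' : X * a * G (u + h) ≤ X * a * κ := mul_le_mul_of_nonneg_left g1.2 (by positivity)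
  have t2' : X * a ^ 2 * -G (u + 2 * h) ≤ X * a ^ 2 * κ :=
    mul_le_mul_of_nonneg_left (by linarith) (by positivity)
  have hc0X : 0 < c0 * X := by positivity
  have hexp : X * a ^ 3 - X * a ^ 2 - (X * a - X) = c0 * X := by rw [hc0]; ring
  rw [hk] at b0 b1 b2
  have hk' : X * a ^ 3 * κ = X * (c0 / 16) := by rw [← hk]; ring
  nlinarith

/-- primes in short intervals -/
theorem exists_prime_short (η : ℝ) (hη : 0 < η) (hη1 : η < 1) : ∃ Y : ℝ, ∀ y ≥ Y,
    ∃ p : ℕ, p.Prime ∧ (1 - η) * y < p ∧ (p : ℝ) ≤ y := by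
  set h : ℝ := - Real.log (1 - η) / 3 with hh
  have hlog : Real.log (1 - η) < 0 := Real.log_neg (by linarith) (by linarith)
  have hpos : 0 < h := by rw [hh]; linarith
  obtain ⟨U, hU⟩ := exists_prime_exp h hpos
  refine ⟨Real.exp (U + 3 * h), fun y hy => ?_⟩
  have hy0 : 0 < y := lt_of_lt_of_le (Real.exp_pos _) hy
  have h1 : U + 3 * h ≤ Real.log y := by rwa [Real.le_log_iff_exp_le hy0]
  obtain ⟨p, hp, h2, h3⟩ := hU (Real.log y - 3 * h) (by linarith)
  refine ⟨p, hp, ?_, ?_⟩
  · have : Real.exp (Real.log y - 3 * h) = (1 - η) * y := by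
      have e1 : Real.log y - 3 * h = Real.log (1 - η) + Real.log y := by rw [hh]; ring
      rw [e1, Real.exp_add, Real.exp_log (by linarith), Real.exp_log hy0]
    rwa [this] at h2
  · rw [show Real.log y - 3 * h + 3 * h = Real.log y by ring, Real.exp_log hy0] at h3
    exact h3

end Pool.Agent.Work.MP_d0c231_co
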